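import Mathlib
import Pool.Agent.Y760.ZG.Fld

/-!
# Parts of finite sums of characters, limits along the ultrafilter
-/

set_option autoImplicit false

namespace Pool.Agent.W2helper67.CZ

open Filter Topology Pool.Agent.TH932.Abs Pool.Agent.TH932.Germs Pool.Agent.TH932.Chi
open Pool.Agent.TH796.AL Pool.Agent.Y760.ZG

section

variable {L : ℕ → ℝ} {hL : Tendsto L atTop atTop} {F : IntermediateField ℚ ℝ}

/-- the part of a finite sum of characters with the exponents in a given set -/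
theorem part (hF : FiniteDimensional ℚ F) {ι : Type*} (s : Finset ι) (m : ℕ) (a : ι → KA F hL)
    (g : ι → Fin m → ℝ) {x : ℝ} (h : ∑ i ∈ s, (a i : HR) * rho (ch (bs m) hL (g i)) ∈ SR L x)
    (p : (Fin m → ℝ) → Prop) [DecidablePred p] :
    ∑ i ∈ s.filter (fun i => p (g i)), (a i : HR) * rho (ch (bs m) hL (g i)) ∈ SR L x := by
  classical
  set Φ : RgA F m hL := ∑ i ∈ s, AddMonoidAlgebra.single (g i) (a i) with hΦ
  set Ψ : RgA F m hL := ∑ i ∈ s.filter (fun i => p (g i)), AddMonoidAlgebra.single (g i) (a i) with hΨ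
  have h1 : evA F (bs m) hL Φ = ∑ i ∈ s, (a i : HR) * rho (ch (bs m) hL (g i)) := by
    rw [hΦ, map_sum]
    exact Finset.sum_congr rfl fun i _ => evA_single hL F _ _
  have h2 : evA F (bs m) hL Ψ =
      ∑ i ∈ s.filter (fun i => p (g i)), (a i : HR) * rho (ch (bs m) hL (g i)) := by
    rw [hΨ, map_sum]
    exact Finset.sum_congr rfl fun i _ => evA_single hL F _ _
  rw [← h1] at h
  rw [← h2, evA_sum]
  refine SR_sum hL _ _ fun u hu => ?_
  rw [Finsupp.mem_support_iff] at hu
  have h3 : Ψ.coeff u = if p u then Φ.coeff u else 0 := by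
    rw [hΨ, hΦ, AddMonoidAlgebra.coeff_sum, AddMonoidAlgebra.coeff_sum, Finsupp.finsetSum_apply,
      Finsupp.finsetSum_apply, Finset.sum_filter]
    simp only [AddMonoidAlgebra.coeff_single, Finsupp.single_apply]
    by_cases hp : p u
    · rw [if_pos hp]
      refine Finset.sum_congr rfl fun i _ => ?_
      by_cases hi : g i = u
      · rw [if_pos (by rw [hi]; exact hp)]
      · rw [if_neg hi]
        simp
    · rw [if_neg hp]
      refine Finset.sum_eq_zero fun i _ => ?_
      by_cases hi : g i = u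
      · rw [if_neg (by rw [hi]; exact hp)]
      · rw [if_neg hi]
        simp
  have h4 : Φ.coeff u ≠ 0 := by
    intro h5
    apply hu
    rw [h3, h5]
    simp
  have h5 := kp1 hF Φ h u h4
  have h6 := SR_mul hL (SR_KA hL F (Ψ.coeff u)) (SR_rho (ch_mem (B := bs m) hL none u))
  refine SR_anti hL ?_ h6
  rw [zero_add]
  exact h5

end

/-- limits along the ultrafilter -/
theorem ulim (x : ℕ → ℝ) (R : ℝ) (h : ∀ᶠ j in (UU : Filter ℕ), |x j| ≤ R) :
    ∃ l : ℝ, ∀ ε : ℝ, 0 < ε → ∀ᶠ j in (UU : Filter ℕ), |x j - l| ≤ ε := by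
  have hc : IsCompact (Set.Icc (-R) R) := isCompact_Icc
  obtain ⟨l, _, hl⟩ := hc.ultrafilter_le_nhds (UU.map x) (by
    rw [Filter.le_principal_iff]
    show Set.Icc (-R) R ∈ Filter.map x (UU : Filter ℕ)
    rw [Filter.mem_map]
    filter_upwards [h] with j hj
    exact abs_le.1 hj)
  refine ⟨l, fun ε hε => ?_⟩
  have h1 := hl (Metric.closedBall_mem_nhds l hε)
  have h2 : x ⁻¹' (Metric.closedBall l ε) ∈ (UU : Filter ℕ) := h1
  filter_upwards [h2] with j hj
  rw [Set.mem_preimage, Metric.mem_closedBall, Real.dist_eq] at hj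
  exact hj

/-- the dichotomy: a nonnegative sequence has a limit or is infinite -/
theorem udich (x : ℕ → ℝ) (hx : ∀ᶠ j in (UU : Filter ℕ), 0 ≤ x j) :
    (∃ l : ℝ, ∀ ε : ℝ, 0 < ε → ∀ᶠ j in (UU : Filter ℕ), |x j - l| ≤ ε) ∨
      ∀ R : ℝ, ∀ᶠ j in (UU : Filter ℕ), R < x j := by
  by_cases h : ∃ R : ℝ, ∀ᶠ j in (UU : Filter ℕ), x j ≤ R
  · left
    obtain ⟨R, hR⟩ := h
    refine ulim x R ?_
    filter_upwards [hx, hR] with j h1 h2
    rw [abs_of_nonneg h1]
    exact h2
  · right
    push Not at h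
    intro R
    exact h R

end Pool.Agent.W2helper67.CZ
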