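import Mathlib
import Pool.Agent.W2helper67.CZ.A

/-!
# The germ of a block of terms
-/

set_option autoImplicit false

namespace Pool.Agent.W2helper67.CZ

open Filter Topology Pool.Agent.TH932.Abs Pool.Agent.TH932.Germs Pool.Agent.TH932.Chi
open Pool.Agent.TH796.AL Pool.Agent.Y760.ZG

/-- exponents of the first primes -/
noncomputable def vk (M k : ℕ) : Fin M → ℕ := fun i => k.factorization (pr i)

theorem pr_big (M : ℕ) : M + 2 ≤ pr M := Nat.add_two_le_nth_prime M

theorem prod_vk {M k : ℕ} (hk : k ≠ 0) (hkM : k ≤ M) : ∏ i : Fin M, pr i ^ vk M k i = k := by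
  classical
  have h1 := Nat.prod_factorization_pow_eq_self hk
  conv_rhs => rw [← h1]
  rw [Finsupp.prod_of_support_subset k.factorization
    (s := Finset.univ.image fun i : Fin M => pr i) ?_ _ (by simp)]
  · rw [Finset.prod_image fun a _ b _ h => Fin.ext (pr_inj h)]
    rfl
  · intro p hp
    rw [Nat.support_factorization] at hp
    have h2 := Nat.prime_of_mem_primeFactors hp
    have h3 := Nat.le_of_mem_primeFactors hp
    have h4 : p < pr M := lt_of_le_of_lt (h3.trans hkM) (by have := pr_big M; omega)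
    have h5 : pr (Nat.count Nat.Prime p) = p := Nat.nth_count h2
    have h6 : Nat.count Nat.Prime p < M := by
      have h7 : pr (Nat.count Nat.Prime p) < pr M := by rw [h5]; exact h4
      exact (Nat.nth_lt_nth Nat.infinite_setOfPred_prime).1 h7
    exact Finset.mem_image.2 ⟨⟨_, h6⟩, Finset.mem_univ _, h5⟩

section

variable {L : ℕ → ℝ} (hL : Tendsto L atTop atTop)

theorem gm_sum {ι : Type*} (s : Finset ι) (f : ι → ℕ → ℚ) :
    gm (fun j => ∑ i ∈ s, f i j) = ∑ i ∈ s, gm (f i) := by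
  classical
  induction s using Finset.induction_on with
  | empty =>
    simp only [Finset.sum_empty]
    exact gm_zero
  | insert a t ha ih =>
    rw [Finset.sum_insert ha, ← ih]
    simp only [Finset.sum_insert ha]
    rw [gm_add]

theorem gr_sum {ι : Type*} (s : Finset ι) (f : ι → ℕ → ℝ) :
    gr (fun j => ∑ i ∈ s, f i j) = ∑ i ∈ s, gr (f i) := by
  classical
  induction s using Finset.induction_on with
  | empty =>
    simp only [Finset.sum_empty]
    exact gr_zero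
  | insert a t ha ih =>
    rw [Finset.sum_insert ha, ← ih]
    simp only [Finset.sum_insert ha]
    rw [gr_add]

include hL in
/-- sums of powers of a fixed fraction over a short interval have negligible height -/
theorem frac_mem (T : ℕ → Finset ℕ) (t D : ℕ → ℕ) (hT : ∀ j, ∀ s ∈ T j, t j ≤ s ∧ s ≤ t j + D j)
    (hD : ∀ ε : ℝ, 0 < ε → ∀ᶠ j in (UU : Filter ℕ), (D j : ℝ) ≤ ε * L j) (m n : ℕ) (hn : 1 ≤ n) (hnm : n ≤ m) :
    gm (fun j => ∑ s ∈ T j, ((n : ℚ) / m) ^ (s - t j)) ∈ KK L hL := by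
  have hm : 1 ≤ m := hn.trans hnm
  have hmr : (1 : ℝ) ≤ m := by exact_mod_cast hm
  have hnr : (n : ℝ) ≤ m := by exact_mod_cast hnm
  have hlm : 0 ≤ Real.log m := Real.log_nonneg hmr
  have hpow : ∀ j, (m : ℝ) ^ (D j) = Real.exp (D j * Real.log m) := by
    intro j
    rw [mul_comm, Real.exp_mul, Real.exp_log (by linarith), Real.rpow_natCast]
  refine ⟨fun j => ∑ s ∈ T j, (n : ℤ) ^ (s - t j) * (m : ℤ) ^ (D j - (s - t j)), fun j => (m : ℤ) ^ (D j),
    ?_, ?_, ?_, ?_⟩
  · intro ε hε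
    filter_upwards [hD (ε / (1 + Real.log m)) (by positivity), L_nonneg hL] with j hj hLj
    have hcard : ((T j).card : ℝ) ≤ D j + 1 := by
      have h1 : T j ⊆ Finset.Icc (t j) (t j + D j) := fun s hs => Finset.mem_Icc.2 (hT j s hs)
      have h2 := Finset.card_le_card h1
      rw [Nat.card_Icc] at h2
      have h3 : (T j).card ≤ D j + 1 := by omega
      exact_mod_cast h3
    have hterm : ∀ s ∈ T j, |((n : ℤ) ^ (s - t j) * (m : ℤ) ^ (D j - (s - t j)) : ℤ)| ≤ (m : ℤ) ^ (D j) := by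
      intro s hs
      obtain ⟨h1, h2⟩ := hT j s hs
      rw [abs_of_nonneg (by positivity)]
      calc (n : ℤ) ^ (s - t j) * (m : ℤ) ^ (D j - (s - t j)) ≤ (m : ℤ) ^ (s - t j) * (m : ℤ) ^ (D j - (s - t j)) := by
            apply mul_le_mul_of_nonneg_right _ (by positivity)
            exact pow_le_pow_left₀ (by positivity) (by exact_mod_cast hnm) _
        _ = (m : ℤ) ^ (D j) := by
            rw [← pow_add]
            congr 1
            omega
    have h3 : |((∑ s ∈ T j, (n : ℤ) ^ (s - t j) * (m : ℤ) ^ (D j - (s - t j)) : ℤ) : ℝ)| ≤ (T j).card * (m : ℝ) ^ (D j) := by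
      have h4 : |(∑ s ∈ T j, (n : ℤ) ^ (s - t j) * (m : ℤ) ^ (D j - (s - t j)) : ℤ)| ≤ (T j).card * (m : ℤ) ^ (D j) := by
        refine (Finset.abs_sum_le_sum_abs _ _).trans ?_
        refine (Finset.sum_le_sum hterm).trans (le_of_eq ?_)
        rw [Finset.sum_const, nsmul_eq_mul]
      exact_mod_cast h4
    refine h3.trans ?_
    have h5 : ((D j : ℝ) + 1) ≤ Real.exp (D j) := Real.add_one_le_exp _
    calc ((T j).card : ℝ) * (m : ℝ) ^ (D j) ≤ Real.exp (D j) * Real.exp (D j * Real.log m) := by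
          rw [← hpow]
          exact mul_le_mul_of_nonneg_right (hcard.trans h5) (by positivity)
      _ = Real.exp (D j * (1 + Real.log m)) := by
          rw [← Real.exp_add]
          congr 1
          ring
      _ ≤ Real.exp (ε * L j) := by
          apply Real.exp_le_exp.2
          have h6 : (D j : ℝ) * (1 + Real.log m) ≤ ε / (1 + Real.log m) * L j * (1 + Real.log m) :=
            mul_le_mul_of_nonneg_right hj (by linarith)
          refine h6.trans (le_of_eq ?_)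
          field_simp
  · intro ε hε
    filter_upwards [hD (ε / (1 + Real.log m)) (by positivity), L_nonneg hL] with j hj hLj
    push_cast
    rw [abs_pow, Nat.abs_cast, hpow]
    apply Real.exp_le_exp.2
    have h6 : (D j : ℝ) * (1 + Real.log m) ≤ ε / (1 + Real.log m) * L j * (1 + Real.log m) :=
      mul_le_mul_of_nonneg_right hj (by linarith)
    have h7 : ε / (1 + Real.log m) * L j * (1 + Real.log m) = ε * L j := by field_simp
    have h8 : (0 : ℝ) ≤ D j := Nat.cast_nonneg _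
    nlinarith
  · refine Eventually.of_forall fun j => ?_
    have : (m : ℤ) ≠ 0 := by exact_mod_cast (by omega : m ≠ 0)
    exact pow_ne_zero _ this
  · congr 1
    funext j
    have hm0 : (m : ℚ) ≠ 0 := by exact_mod_cast (by omega : m ≠ 0)
    push_cast
    rw [Finset.sum_div]
    refine Finset.sum_congr rfl fun s hs => ?_
    obtain ⟨h1, h2⟩ := hT j s hs
    have e1 : (m : ℚ) ^ (D j) = (m : ℚ) ^ (s - t j) * (m : ℚ) ^ (D j - (s - t j)) := by
      rw [← pow_add]
      congr 1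
      omega
    rw [e1, div_pow]
    field_simp

variable (F : IntermediateField ℚ ℝ)

/-- the coefficient of a block -/
theorem coef_mem (Λ : Finset ℝ) (hΛ : ∀ a ∈ Λ, a ∈ F) (c : ℕ → ℕ → ℝ)
    (T : ℕ → Finset ℕ) (hc : ∀ j, ∀ s ∈ T j, c j s ∈ Λ) (t D : ℕ → ℕ)
    (hT : ∀ j, ∀ s ∈ T j, t j ≤ s ∧ s ≤ t j + D j)
    (hD : ∀ ε : ℝ, 0 < ε → ∀ᶠ j in (UU : Filter ℕ), (D j : ℝ) ≤ ε * L j) (m n : ℕ) (hn : 1 ≤ n) (hnm : n ≤ m) :
    gr (fun j => ∑ s ∈ T j, c j s * ((n : ℝ) / m) ^ (s - t j)) ∈ KA F hL := by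
  classical
  have h1 : gr (fun j => ∑ s ∈ T j, c j s * ((n : ℝ) / m) ^ (s - t j)) =
      ∑ a ∈ Λ, algebraMap ℝ HR a * rho (gm (fun j => ∑ s ∈ (T j).filter (fun s => c j s = a), ((n : ℚ) / m) ^ (s - t j))) := by
    have h2 : ∀ a : ℝ, algebraMap ℝ HR a * rho (gm (fun j => ∑ s ∈ (T j).filter (fun s => c j s = a), ((n : ℚ) / m) ^ (s - t j))) =
        gr (fun j => ∑ s ∈ (T j).filter (fun s => c j s = a), c j s * ((n : ℝ) / m) ^ (s - t j)) := by
      intro a
      rw [cst_eq, rho_gm, gr_mul]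
      congr 1
      funext j
      push_cast
      rw [Finset.mul_sum]
      refine Finset.sum_congr rfl fun s hs => ?_
      rw [(Finset.mem_filter.1 hs).2]
    rw [Finset.sum_congr rfl fun a _ => h2 a, ← gr_sum]
    congr 1
    funext j
    exact (Finset.sum_fiberwise_of_maps_to (fun s hs => hc j s hs) _).symm
  rw [h1]
  refine Subalgebra.sum_mem _ fun a ha => Subalgebra.mul_mem _ (cst_mem_KA hL F ⟨a, hΛ a ha⟩) ?_
  have h3 := frac_mem hL (fun j => (T j).filter (fun s => c j s = a)) t D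
    (fun j s hs => hT j s (Finset.mem_filter.1 hs).1) hD m n hn hnm
  exact rho_mem_KA hL F ⟨_, h3⟩

/-- the germ of a block of terms -/
theorem block (Λ : Finset ℝ) (hΛ : ∀ a ∈ Λ, a ∈ F) (c : ℕ → ℕ → ℝ)
    (T : ℕ → Finset ℕ) (hc : ∀ j, ∀ s ∈ T j, c j s ∈ Λ) (t D k : ℕ → ℕ)
    (hT : ∀ j, ∀ s ∈ T j, t j ≤ s ∧ s ≤ t j + D j) (hTk : ∀ j, ∀ s ∈ T j, s ≤ k j)
    (hD : ∀ ε : ℝ, 0 < ε → ∀ᶠ j in (UU : Filter ℕ), (D j : ℝ) ≤ ε * L j) (l r : ℝ)
    (hl : ∀ ε : ℝ, 0 < ε → ∀ᶠ j in (UU : Filter ℕ), |(t j : ℝ) - l * L j| ≤ ε * L j)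
    (htk : ∀ j, t j ≤ k j)
    (m n M : ℕ) (hn : 1 ≤ n) (hnm : n ≤ m) (hmM : m ≤ M)
    (hr : n = 1 ∨ ∀ ε : ℝ, 0 < ε → ∀ᶠ j in (UU : Filter ℕ), |((k j : ℝ) - t j) - r * L j| ≤ ε * L j) :
    ∃ a : KA F hL, gr (fun j => ∑ s ∈ T j, c j s * (((m : ℝ) ^ s)⁻¹ * ((n : ℝ) ^ (k j - s))⁻¹)) =
      (a : HR) * rho (ch (bs M) hL (fun i => -(l * vk M m i + r * vk M n i))) := by
  have hm : 1 ≤ m := hn.trans hnm
  have hm0 : (m : ℝ) ≠ 0 := by exact_mod_cast (by omega : m ≠ 0)
  have hn0 : (n : ℝ) ≠ 0 := by exact_mod_cast (by omega : n ≠ 0)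
  -- the monomial
  obtain ⟨κ, _, hκ⟩ := exists_const (B := bs M) hL (fun i => -(l * vk M m i + r * vk M n i))
    (fun j i => -((vk M m i : ℤ) * t j + (vk M n i : ℤ) * ((k j : ℤ) - t j))) (fun i ε hε => by
      set A : ℝ := ((vk M m i : ℕ) : ℝ) with hA
      set B : ℝ := ((vk M n i : ℕ) : ℝ) with hB
      have hA0 : 0 ≤ A := Nat.cast_nonneg _
      have hB0 : 0 ≤ B := Nat.cast_nonneg _
      have hr' : ∀ ε : ℝ, 0 < ε → ∀ᶠ j in (UU : Filter ℕ), |B * ((k j : ℝ) - t j) - B * (r * L j)| ≤ ε * L j := by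
        intro ε hε
        rcases hr with hr | hr
        · have hB1 : B = 0 := by
            rw [hB, hr]
            unfold vk
            rw [Nat.factorization_one]
            simp
          filter_upwards [L_nonneg hL] with j hj
          rw [hB1]
          simp only [zero_mul, sub_self, abs_zero]
          positivity
        · filter_upwards [hr (ε / (B + 1)) (by positivity), L_nonneg hL] with j hj hLj
          rw [← mul_sub, abs_mul, abs_of_nonneg hB0]
          calc B * |(k j : ℝ) - t j - r * L j| ≤ (B + 1) * (ε / (B + 1) * L j) :=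
                mul_le_mul (by linarith) hj (abs_nonneg _) (by positivity)
            _ = ε * L j := by field_simp
      filter_upwards [hl (ε / 2 / (A + 1)) (by positivity), hr' (ε / 2) (by positivity), L_nonneg hL] with j h1 h2 h3
      push_cast
      rw [← hA, ← hB]
      have e1 : -(A * (t j : ℝ) + B * ((k j : ℝ) - t j)) - -(l * A + r * B) * L j =
          -(A * ((t j : ℝ) - l * L j)) - (B * ((k j : ℝ) - t j) - B * (r * L j)) := by ring
      rw [e1]
      refine (abs_sub _ _).trans ?_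
      rw [abs_neg, abs_mul, abs_of_nonneg hA0]
      have h4 : A * |(t j : ℝ) - l * L j| ≤ (A + 1) * (ε / 2 / (A + 1) * L j) :=
        mul_le_mul (by linarith) h1 (abs_nonneg _) (by positivity)
      have h5 : (A + 1) * (ε / 2 / (A + 1) * L j) = ε / 2 * L j := by field_simp
      linarith)
  have hmono : gm (fun j => ((m : ℚ) ^ (t j))⁻¹ * ((n : ℚ) ^ (k j - t j))⁻¹) =
      (κ : GG) * ch (bs M) hL (fun i => -(l * vk M m i + r * vk M n i)) := by
    rw [← hκ]
    congr 1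
    funext j
    have hp : ∀ i : Fin M, ((pr i : ℕ) : ℚ) ≠ 0 := fun i => by exact_mod_cast (pr_prime i).ne_zero
    have e1 : (m : ℚ) = ∏ i : Fin M, ((pr i : ℕ) : ℚ) ^ vk M m i := by
      exact_mod_cast (prod_vk (by omega : m ≠ 0) hmM).symm
    have e2 : (n : ℚ) = ∏ i : Fin M, ((pr i : ℕ) : ℚ) ^ vk M n i := by
      exact_mod_cast (prod_vk (by omega : n ≠ 0) (hnm.trans hmM)).symm
    have e3 : ((m : ℚ) ^ (t j))⁻¹ * ((n : ℚ) ^ (k j - t j))⁻¹ =
        ∏ i : Fin M, ((pr i : ℕ) : ℚ) ^ (-((vk M m i : ℤ) * t j + (vk M n i : ℤ) * ((k j : ℤ) - t j))) := by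
      conv_lhs => rw [e1, e2]
      rw [← Finset.prod_pow, ← Finset.prod_pow, ← mul_inv, ← Finset.prod_mul_distrib, ← Finset.prod_inv_distrib]
      refine Finset.prod_congr rfl fun i _ => ?_
      have f1 : ((pr i : ℕ) : ℚ) ^ ((vk M m i : ℤ) * t j) = (((pr i : ℕ) : ℚ) ^ vk M m i) ^ t j := by
        rw [← pow_mul, ← zpow_natCast, Nat.cast_mul]
      have f2 : ((pr i : ℕ) : ℚ) ^ ((vk M n i : ℤ) * ((k j : ℤ) - t j)) = (((pr i : ℕ) : ℚ) ^ vk M n i) ^ (k j - t j) := by
        rw [← pow_mul, ← zpow_natCast, Nat.cast_mul, Nat.cast_sub (htk j)]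
      rw [zpow_neg, zpow_add₀ (hp i), f1, f2]
    exact e3
  set C : HR := gr (fun j => ∑ s ∈ T j, c j s * ((n : ℝ) / m) ^ (s - t j)) with hC
  have hCm : C ∈ KA F hL := coef_mem hL F Λ hΛ c T hc t D hT hD m n hn hnm
  refine ⟨⟨C, hCm⟩ * ⟨_, rho_mem_KA hL F κ⟩, ?_⟩
  push_cast
  rw [mul_assoc, ← map_mul, ← hmono, rho_gm, hC, gr_mul]
  congr 1
  funext j
  rw [Finset.sum_mul]
  refine Finset.sum_congr rfl fun s hs => ?_
  obtain ⟨h1, h2⟩ := hT j s hs
  have h3 := hTk j s hs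
  obtain ⟨e, rfl⟩ : ∃ e, s = t j + e := ⟨s - t j, by omega⟩
  obtain ⟨f, hf⟩ : ∃ f, k j = t j + e + f := ⟨k j - (t j + e), by omega⟩
  have e4 : k j - (t j + e) = f := by omega
  have e5 : k j - t j = e + f := by omega
  have e6 : t j + e - t j = e := by omega
  rw [e4, e5, e6, div_pow, pow_add, pow_add]
  push_cast
  field_simp

end

end Pool.Agent.W2helper67.CZ
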