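import Mathlib
import Pool.Agent.W2helper67.CZ.B
import Pool.Agent.W2helper67.DZ.B

/-!
# Estimates
-/

set_option autoImplicit false

namespace Pool.Agent.W2helper67.CZ

open Filter Topology Pool.Agent.TH932.Abs Pool.Agent.TH932.Germs Pool.Agent.TH932.Chi
open Pool.Agent.TH796.AL Pool.Agent.Y760.ZG
open Pool.Agent.W2helper67.DZ (dz zt inner_le summable_dz summable_zt tail_two)

/-- the truncated double zeta value -/
noncomputable def dzt (M p q : ℕ) : ℝ :=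
  ∑ m ∈ Finset.range M, (∑ n ∈ Finset.Ico 1 (m + 1), 1 / (n : ℝ) ^ q) / ((m + 1 : ℕ) : ℝ) ^ p

theorem dz_trunc (M p q : ℕ) (hp : 3 ≤ p) :
    |dz p q - dzt M p q| ≤ 2 * (((M + 1 : ℕ) : ℝ) ^ (p - 3))⁻¹ := by
  have hs := summable_dz p q hp
  have h1 := hs.sum_add_tsum_nat_add M
  have h2 : dz p q - dzt M p q =
      ∑' i : ℕ, (∑ n ∈ Finset.Ico 1 (i + M + 1), 1 / (n : ℝ) ^ q) / ((i + M + 1 : ℕ) : ℝ) ^ p := by
    unfold dz dzt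
    linarith
  have h0 : 0 ≤ ∑' i : ℕ, (∑ n ∈ Finset.Ico 1 (i + M + 1), 1 / (n : ℝ) ^ q) / ((i + M + 1 : ℕ) : ℝ) ^ p :=
    tsum_nonneg fun i => div_nonneg (Finset.sum_nonneg fun n _ => by positivity) (by positivity)
  rw [h2, abs_of_nonneg h0]
  obtain ⟨ht1, ht2⟩ := tail_two (M + 1)
  have hM : (0 : ℝ) < ((M + 1 : ℕ) : ℝ) := by positivity
  have hle : ∀ i : ℕ, (∑ n ∈ Finset.Ico 1 (i + M + 1), 1 / (n : ℝ) ^ q) / ((i + M + 1 : ℕ) : ℝ) ^ p ≤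
      (((M + 1 : ℕ) : ℝ) ^ (p - 3))⁻¹ * (1 / ((i + (M + 1) : ℕ) : ℝ) ^ 2) := by
    intro i
    have h3 := inner_le q (i + M)
    have hx : (0 : ℝ) < ((i + M + 1 : ℕ) : ℝ) := by positivity
    have hx1 : ((i + M : ℕ) : ℝ) ≤ ((i + M + 1 : ℕ) : ℝ) := by exact_mod_cast Nat.le_succ _
    have hx2 : ((M + 1 : ℕ) : ℝ) ≤ ((i + M + 1 : ℕ) : ℝ) := by exact_mod_cast (by omega : M + 1 ≤ i + M + 1)
    have e1 : ((i + M + 1 : ℕ) : ℝ) ^ p = ((i + M + 1 : ℕ) : ℝ) ^ (p - 3) * ((i + M + 1 : ℕ) : ℝ) ^ 2 * ((i + M + 1 : ℕ) : ℝ) := by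
      rw [← pow_add, ← pow_succ]
      congr 1
      omega
    rw [e1, ← add_assoc i M 1]
    calc (∑ n ∈ Finset.Ico 1 (i + M + 1), 1 / (n : ℝ) ^ q) / (((i + M + 1 : ℕ) : ℝ) ^ (p - 3) * ((i + M + 1 : ℕ) : ℝ) ^ 2 * ((i + M + 1 : ℕ) : ℝ))
        ≤ ((i + M + 1 : ℕ) : ℝ) / (((i + M + 1 : ℕ) : ℝ) ^ (p - 3) * ((i + M + 1 : ℕ) : ℝ) ^ 2 * ((i + M + 1 : ℕ) : ℝ)) :=
          div_le_div_of_nonneg_right (h3.trans hx1) (by positivity)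
      _ = (((i + M + 1 : ℕ) : ℝ) ^ (p - 3))⁻¹ * (1 / ((i + M + 1 : ℕ) : ℝ) ^ 2) := by field_simp
      _ ≤ (((M + 1 : ℕ) : ℝ) ^ (p - 3))⁻¹ * (1 / ((i + M + 1 : ℕ) : ℝ) ^ 2) := by
          apply mul_le_mul_of_nonneg_right _ (by positivity)
          exact inv_anti₀ (by positivity) (pow_le_pow_left₀ hM.le hx2 _)
  have hs1 : Summable fun i : ℕ => (((M + 1 : ℕ) : ℝ) ^ (p - 3))⁻¹ * (1 / ((i + (M + 1) : ℕ) : ℝ) ^ 2) := ht1.mul_left _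
  have hs0 : Summable fun i : ℕ => (∑ n ∈ Finset.Ico 1 (i + M + 1), 1 / (n : ℝ) ^ q) / ((i + M + 1 : ℕ) : ℝ) ^ p :=
    (summable_nat_add_iff M).2 hs
  calc ∑' i : ℕ, (∑ n ∈ Finset.Ico 1 (i + M + 1), 1 / (n : ℝ) ^ q) / ((i + M + 1 : ℕ) : ℝ) ^ p
      ≤ ∑' i : ℕ, (((M + 1 : ℕ) : ℝ) ^ (p - 3))⁻¹ * (1 / ((i + (M + 1) : ℕ) : ℝ) ^ 2) := hs0.tsum_le_tsum hle hs1
    _ = (((M + 1 : ℕ) : ℝ) ^ (p - 3))⁻¹ * ∑' i : ℕ, (1 / ((i + (M + 1) : ℕ) : ℝ) ^ 2) := tsum_mul_left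
    _ ≤ (((M + 1 : ℕ) : ℝ) ^ (p - 3))⁻¹ * 2 := mul_le_mul_of_nonneg_left ht2 (by positivity)
    _ = 2 * (((M + 1 : ℕ) : ℝ) ^ (p - 3))⁻¹ := mul_comm _ _

/-- the pairs `1 ≤ n < m ≤ M` -/
def PM (M : ℕ) : Finset (ℕ × ℕ) := ((Finset.Icc 1 M) ×ˢ (Finset.Icc 1 M)).filter fun x => x.2 < x.1

theorem mem_PM {M : ℕ} {x : ℕ × ℕ} : x ∈ PM M ↔ 1 ≤ x.2 ∧ x.2 < x.1 ∧ x.1 ≤ M := by
  unfold PM
  rw [Finset.mem_filter, Finset.mem_product, Finset.mem_Icc, Finset.mem_Icc]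
  omega

theorem sum_PM (M : ℕ) (f : ℕ → ℕ → ℝ) :
    ∑ x ∈ PM M, f x.1 x.2 = ∑ m ∈ Finset.range M, ∑ n ∈ Finset.Ico 1 (m + 1), f (m + 1) n := by
  rw [Finset.sum_sigma']
  symm
  refine Finset.sum_bij' (fun x _ => (x.1 + 1, x.2)) (fun x _ => ⟨x.1 - 1, x.2⟩) ?_ ?_ ?_ ?_ ?_
  · intro x hx
    rw [Finset.mem_sigma, Finset.mem_range, Finset.mem_Ico] at hx
    rw [mem_PM]
    simp only
    omega
  · intro x hx
    rw [mem_PM] at hx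
    rw [Finset.mem_sigma, Finset.mem_range, Finset.mem_Ico]
    simp only
    omega
  · intro x _
    simp
  · intro x hx
    rw [mem_PM] at hx
    have : x.1 - 1 + 1 = x.1 := by omega
    simp only [this]
  · intro x _
    rfl

theorem dzt_eq (M p q : ℕ) : dzt M p q = ∑ x ∈ PM M, ((x.1 : ℝ) ^ p)⁻¹ * ((x.2 : ℝ) ^ q)⁻¹ := by
  rw [sum_PM M (fun m n => ((m : ℝ) ^ p)⁻¹ * ((n : ℝ) ^ q)⁻¹)]
  unfold dzt
  refine Finset.sum_congr rfl fun m _ => ?_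
  rw [div_eq_inv_mul, Finset.mul_sum]
  refine Finset.sum_congr rfl fun n _ => ?_
  rw [one_div]

/-- a geometric sum over a set of exponents larger than `n0` -/
theorem geo_le (q : ℝ) (hq : 1 < q) (n0 : ℕ) (T : Finset ℕ) (hT : ∀ s ∈ T, n0 < s) :
    ∑ s ∈ T, (q ^ s)⁻¹ ≤ (q ^ n0)⁻¹ / (q - 1) := by
  classical
  have hq0 : 0 < q := by linarith
  have hx0 : 0 ≤ q⁻¹ := by positivity
  have hx1 : q⁻¹ < 1 := inv_lt_one_of_one_lt₀ hq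
  have h1 : ∑ s ∈ T, (q ^ s)⁻¹ = (q ^ n0)⁻¹ * q⁻¹ * ∑ s ∈ T, q⁻¹ ^ (s - (n0 + 1)) := by
    rw [Finset.mul_sum]
    refine Finset.sum_congr rfl fun s hs => ?_
    have := hT s hs
    obtain ⟨e, rfl⟩ : ∃ e, s = n0 + 1 + e := ⟨s - (n0 + 1), by omega⟩
    rw [Nat.add_sub_cancel_left, pow_add, pow_succ, inv_pow, mul_inv, mul_inv]
  have h2 : ∑ s ∈ T, q⁻¹ ^ (s - (n0 + 1)) ≤ (1 - q⁻¹)⁻¹ := by
    rw [← tsum_geometric_of_lt_one hx0 hx1, ← Finset.sum_image (s := T) (f := fun e => q⁻¹ ^ e) (g := fun s => s - (n0 + 1))]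
    · exact (summable_geometric_of_lt_one hx0 hx1).sum_le_tsum _ (fun i _ => by positivity)
    · intro a ha b hb hab
      have h3 := hT a ha
      have h4 := hT b hb
      simp only at hab
      omega
  rw [h1]
  have h3 : 0 ≤ (q ^ n0)⁻¹ * q⁻¹ := by positivity
  calc (q ^ n0)⁻¹ * q⁻¹ * ∑ s ∈ T, q⁻¹ ^ (s - (n0 + 1)) ≤ (q ^ n0)⁻¹ * q⁻¹ * (1 - q⁻¹)⁻¹ :=
        mul_le_mul_of_nonneg_left h2 h3
    _ = (q ^ n0)⁻¹ / (q - 1) := by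
        have h4 : q - 1 ≠ 0 := by linarith
        have h5 : 1 - q⁻¹ = (q - 1) / q := by field_simp
        rw [h5, inv_div]
        field_simp

/-- the lowest term dominates -/
theorem main_low (q : ℝ) (hq : 1 < q) (n0 : ℕ) (T : Finset ℕ) (hn0 : n0 ∈ T) (hT : ∀ s ∈ T, n0 ≤ s)
    (c W : ℕ → ℝ) (μ H W0 : ℝ) (hH : 0 ≤ H) (hμ : μ ≤ |c n0|) (hc : ∀ s ∈ T, |c s| ≤ H)
    (hW : ∀ s ∈ T, 1 ≤ W s ∧ W s ≤ W0) (hqb : 2 * (H * W0) ≤ μ * (q - 1)) :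
    μ / 2 * (q ^ n0)⁻¹ ≤ |∑ s ∈ T, c s * ((q ^ s)⁻¹ * W s)| := by
  classical
  have hq0 : 0 < q := by linarith
  have hQ : 0 < (q ^ n0)⁻¹ := by positivity
  have hW01 : 1 ≤ W0 := (hW n0 hn0).1.trans (hW n0 hn0).2
  rw [← Finset.add_sum_erase _ _ hn0]
  have h1 : |∑ s ∈ T.erase n0, c s * ((q ^ s)⁻¹ * W s)| ≤ μ / 2 * (q ^ n0)⁻¹ := by
    calc |∑ s ∈ T.erase n0, c s * ((q ^ s)⁻¹ * W s)| ≤ ∑ s ∈ T.erase n0, (H * W0) * (q ^ s)⁻¹ := by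
          refine (Finset.abs_sum_le_sum_abs _ _).trans (Finset.sum_le_sum fun s hs => ?_)
          have hs' := Finset.mem_of_mem_erase hs
          obtain ⟨h2, h3⟩ := hW s hs'
          rw [abs_mul, abs_mul, abs_of_nonneg (by positivity : (0 : ℝ) ≤ (q ^ s)⁻¹), abs_of_nonneg (by linarith : (0 : ℝ) ≤ W s)]
          calc |c s| * ((q ^ s)⁻¹ * W s) ≤ H * ((q ^ s)⁻¹ * W0) := by
                apply mul_le_mul (hc s hs') _ (by positivity) hH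
                exact mul_le_mul_of_nonneg_left h3 (by positivity)
            _ = (H * W0) * (q ^ s)⁻¹ := by ring
      _ = (H * W0) * ∑ s ∈ T.erase n0, (q ^ s)⁻¹ := by rw [Finset.mul_sum]
      _ ≤ (H * W0) * ((q ^ n0)⁻¹ / (q - 1)) := by
          apply mul_le_mul_of_nonneg_left _ (by positivity)
          refine geo_le q hq n0 _ fun s hs => ?_
          rw [Finset.mem_erase] at hs
          exact lt_of_le_of_ne (hT s hs.2) (Ne.symm hs.1)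
      _ ≤ μ / 2 * (q ^ n0)⁻¹ := by
          have h4 : 0 < q - 1 := by linarith
          rw [← mul_div_assoc, div_le_iff₀ h4]
          nlinarith
  have h2 : μ * (q ^ n0)⁻¹ ≤ |c n0 * ((q ^ n0)⁻¹ * W n0)| := by
    obtain ⟨h2, h3⟩ := hW n0 hn0
    rw [abs_mul, abs_mul, abs_of_nonneg hQ.le, abs_of_nonneg (by linarith : (0 : ℝ) ≤ W n0)]
    calc μ * (q ^ n0)⁻¹ ≤ |c n0| * (q ^ n0)⁻¹ := mul_le_mul_of_nonneg_right hμ hQ.le
      _ ≤ |c n0| * ((q ^ n0)⁻¹ * W n0) := by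
          apply mul_le_mul_of_nonneg_left _ (abs_nonneg _)
          nlinarith
  have h3 := abs_sub_abs_le_abs_sub (c n0 * ((q ^ n0)⁻¹ * W n0)) (-∑ s ∈ T.erase n0, c s * ((q ^ s)⁻¹ * W s))
  rw [abs_neg, sub_neg_eq_add] at h3
  linarith

/-- the weights -/
theorem W_le (q : ℕ) (hq : 2 ≤ q) (A : Finset ℕ) (hA : ∀ n ∈ A, 1 ≤ n ∧ n < q) (h1 : 1 ∈ A) (e : ℕ) (he : 1 ≤ e) :
    1 ≤ ∑ n ∈ A, ((n : ℝ) ^ e)⁻¹ ∧ ∑ n ∈ A, ((n : ℝ) ^ e)⁻¹ ≤ 1 + Real.log q := by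
  constructor
  · have h2 : ((1 : ℕ) : ℝ) ^ e = 1 := by simp
    calc (1 : ℝ) = (((1 : ℕ) : ℝ) ^ e)⁻¹ := by rw [h2]; simp
      _ ≤ ∑ n ∈ A, ((n : ℝ) ^ e)⁻¹ := Finset.single_le_sum (f := fun n : ℕ => ((n : ℝ) ^ e)⁻¹) (fun n _ => by positivity) h1
  · calc ∑ n ∈ A, ((n : ℝ) ^ e)⁻¹ ≤ ∑ n ∈ Finset.Icc 1 q, ((n : ℝ))⁻¹ := by
          calc ∑ n ∈ A, ((n : ℝ) ^ e)⁻¹ ≤ ∑ n ∈ A, ((n : ℝ))⁻¹ := by
                refine Finset.sum_le_sum fun n hn => ?_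
                have h2 : (1 : ℝ) ≤ n := by exact_mod_cast (hA n hn).1
                exact inv_anti₀ (by linarith) (le_self_pow₀ h2 (by omega))
            _ ≤ ∑ n ∈ Finset.Icc 1 q, ((n : ℝ))⁻¹ := by
                refine Finset.sum_le_sum_of_subset_of_nonneg (fun n hn => ?_) (fun n _ _ => by positivity)
                have := hA n hn
                exact Finset.mem_Icc.2 ⟨this.1, this.2.le⟩
      _ = (harmonic q : ℝ) := by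
          rw [harmonic_eq_sum_Icc]
          push_cast
          rfl
      _ ≤ 1 + Real.log q := harmonic_le_one_add_log q

/-- a large prime -/
theorem exists_q (H μ : ℝ) (hH : 0 ≤ H) (hμ : 0 < μ) : ∃ i : ℕ, 2 * (H * (1 + Real.log (pr i))) ≤ μ * ((pr i : ℝ) - 1) := by
  have h1 : Tendsto (fun i : ℕ => (pr i : ℝ)) atTop atTop := by
    refine tendsto_natCast_atTop_atTop.comp ?_
    refine tendsto_atTop_mono (fun i => (Nat.le_add_right i 2).trans (pr_big i)) tendsto_id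
  have h2 : Tendsto (fun x : ℝ => Real.log x / x) atTop (nhds 0) := Real.isLittleO_log_id_atTop.tendsto_div_nhds_zero
  have h3 := (h2.comp h1).eventually (gt_mem_nhds (show (0 : ℝ) < μ / (4 * H + 1) by positivity))
  have h4 := h1.eventually_ge_atTop (2 * (2 * H + μ) / μ)
  have h5 := h1.eventually_ge_atTop 2
  obtain ⟨i, h6, h7, h8⟩ := (h3.and (h4.and h5)).exists
  refine ⟨i, ?_⟩
  simp only [Function.comp] at h6
  have hx : (0 : ℝ) < pr i := by linarith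
  rw [div_lt_iff₀ hx] at h6
  rw [div_le_iff₀ hμ] at h7
  have h9 : 2 * (H * Real.log (pr i)) ≤ μ / 2 * pr i := by
    calc 2 * (H * Real.log (pr i)) ≤ 2 * (H * (μ / (4 * H + 1) * pr i)) := by
          have := mul_le_mul_of_nonneg_left h6.le hH
          linarith
      _ = (4 * H / (4 * H + 1)) * (μ / 2 * pr i) := by
          field_simp
          ring
      _ ≤ 1 * (μ / 2 * pr i) := by
          apply mul_le_mul_of_nonneg_right _ (by positivity)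
          rw [div_le_one (by positivity)]
          linarith
      _ = _ := one_mul _
  nlinarith

end Pool.Agent.W2helper67.CZ
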