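import Mathlib
import Pool.Agent.W2helper67.CZ.C

/-!
# The core: no sequence of counterexamples
-/

set_option autoImplicit false

namespace Pool.Agent.W2helper67.CZ

open Filter Topology Pool.Agent.TH932.Abs Pool.Agent.TH932.Germs Pool.Agent.TH932.Chi
open Pool.Agent.TH796.AL Pool.Agent.Y760.ZG
open Pool.Agent.W2helper67.DZ (dz zt inner_le summable_dz summable_zt tail_two)

section

variable {L : ℕ → ℝ} (hL : Tendsto L atTop atTop)

include hL in
/-- a sufficient condition for smallness -/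
theorem SR_of (z : ℕ → ℝ) (D : ℕ → ℕ) (hD : ∀ ε : ℝ, 0 < ε → ∀ᶠ j in (UU : Filter ℕ), (D j : ℝ) ≤ ε * L j)
    (C x : ℝ) (hC : 0 ≤ C)
    (h : ∀ᶠ j in (UU : Filter ℕ), |z j| ≤ C * ((D j : ℝ) + 1) * Real.exp (-(x * L j))) : gr z ∈ SR L x := by
  rw [mem_SR]
  intro ε hε
  have h1 : ∀ᶠ j in (UU : Filter ℕ), Real.log (C + 1) / (ε / 2) ≤ L j :=
    ev_of_atTop (hL.eventually_ge_atTop _)
  filter_upwards [h, hD (ε / 2) (by positivity), h1] with j h2 h3 h4
  refine h2.trans ?_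
  rw [div_le_iff₀ (by positivity)] at h4
  have h5 : C ≤ Real.exp (ε / 2 * L j) := by
    have h6 : C + 1 = Real.exp (Real.log (C + 1)) := (Real.exp_log (by linarith)).symm
    have h7 : Real.exp (Real.log (C + 1)) ≤ Real.exp (ε / 2 * L j) := Real.exp_le_exp.2 (by linarith)
    linarith
  have h6 : ((D j : ℝ) + 1) ≤ Real.exp (ε / 2 * L j) :=
    (Real.add_one_le_exp _).trans (Real.exp_le_exp.2 h3)
  calc C * ((D j : ℝ) + 1) * Real.exp (-(x * L j))
      ≤ Real.exp (ε / 2 * L j) * Real.exp (ε / 2 * L j) * Real.exp (-(x * L j)) := by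
        apply mul_le_mul_of_nonneg_right _ (Real.exp_pos _).le
        exact mul_le_mul h5 h6 (by positivity) (Real.exp_pos _).le
    _ = Real.exp (-(x - ε) * L j) := by
        rw [← Real.exp_add, ← Real.exp_add]
        congr 1
        ring

theorem SR_sub' {t : ℝ} {a b : HR} (hL : Tendsto L atTop atTop) (ha : a ∈ SR L t) (hb : b ∈ SR L t) : a - b ∈ SR L t := by
  have h1 : -b ∈ SR L t := by
    obtain ⟨b, rfl⟩ := gr_surj b
    rw [mem_SR] at hb
    rw [gr_neg, mem_SR]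
    intro ε hε
    filter_upwards [hb ε hε] with n h1
    rwa [abs_neg]
  rw [sub_eq_add_neg]
  exact SR_add hL ha h1

end

/-- the block of terms with the index `i` and the pair `(m, n)` -/
noncomputable def ZZ {N : ℕ} (kk : ℕ → ℕ) (S : ℕ → Finset ℕ) (ix : ℕ → ℕ → Fin N) (c : ℕ → ℕ → ℝ)
    (u : Fin N × ℕ × ℕ) (j : ℕ) : ℝ :=
  ∑ s ∈ (S j).filter (fun s => ix j s = u.1), c j s * (((u.2.1 : ℝ) ^ s)⁻¹ * ((u.2.2 : ℝ) ^ (kk j - s))⁻¹)

/-- **no sequence of counterexamples** -/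
theorem core (Λ : Finset ℝ) (hΛ : ∀ a ∈ Λ, IsAlgebraic ℚ a) (N : ℕ) (H μ : ℝ) (hH1 : 0 ≤ H)
    (hH : ∀ a ∈ Λ, |a| ≤ H) (hμ0 : 0 < μ) (hμ : ∀ a ∈ Λ, a ≠ 0 → μ ≤ |a|) (iq : ℕ)
    (hiq : 2 * (H * (1 + Real.log (pr iq))) ≤ μ * ((pr iq : ℝ) - 1))
    (nn kk D : ℕ → ℕ) (S : ℕ → Finset ℕ) (τ : ℕ → Fin N → ℕ) (ix : ℕ → ℕ → Fin N) (c : ℕ → ℕ → ℝ)
    (hn : Tendsto (fun j => (nn j : ℝ)) atTop atTop)
    (hD : ∀ ε : ℝ, 0 < ε → ∀ᶠ j in (UU : Filter ℕ), (D j : ℝ) ≤ ε * nn j)
    (hnS : ∀ j, nn j ∈ S j) (hS : ∀ j, ∀ s ∈ S j, nn j ≤ s ∧ s < kk j)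
    (hτ : ∀ j i, nn j ≤ τ j i ∧ τ j i < kk j)
    (hix : ∀ j, ∀ s ∈ S j, τ j (ix j s) ≤ s ∧ s ≤ τ j (ix j s) + D j)
    (hc0 : ∀ j, c j (nn j) ≠ 0) (hc : ∀ j, ∀ s ∈ S j, c j s ∈ Λ)
    (hsmall : gr (fun j => ∑ s ∈ S j, c j s * dz s (kk j - s)) ∈
      SR (fun j => (nn j : ℝ)) (Real.log (pr iq + 1))) :
    False := by
  classical
  set L : ℕ → ℝ := fun j => (nn j : ℝ) with hLdef
  have hLpos : ∀ᶠ j in (UU : Filter ℕ), 1 ≤ L j := ev_of_atTop (hn.eventually_ge_atTop 1)
  -- the number field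
  set F : IntermediateField ℚ ℝ := IntermediateField.adjoin ℚ (Λ : Set ℝ) with hF
  have hFfin : FiniteDimensional ℚ F := by
    refine IntermediateField.finiteDimensional_adjoin fun a ha => ?_
    exact (hΛ a (Finset.mem_coe.1 ha)).isIntegral
  have hΛF : ∀ a ∈ Λ, a ∈ F := fun a ha => IntermediateField.subset_adjoin ℚ _ (Finset.mem_coe.2 ha)
  -- the number of terms
  have hcard : ∀ j, ((S j).card : ℝ) ≤ N * ((D j : ℝ) + 1) := by
    intro j
    have h1 : S j ⊆ (Finset.univ : Finset (Fin N)).biUnion fun i => Finset.Icc (τ j i) (τ j i + D j) := by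
      intro s hs
      exact Finset.mem_biUnion.2 ⟨ix j s, Finset.mem_univ _, Finset.mem_Icc.2 (hix j s hs)⟩
    have h2 : (S j).card ≤ N * (D j + 1) := by
      refine (Finset.card_le_card h1).trans (Finset.card_biUnion_le.trans ?_)
      refine (Finset.sum_le_sum (g := fun _ => D j + 1) fun i _ => ?_).trans (le_of_eq ?_)
      · rw [Nat.card_Icc]
        omega
      · simp
    exact_mod_cast h2
  have hZ : ∀ (u : Fin N × ℕ × ℕ) (j : ℕ) (B : ℝ), (∀ s ∈ S j, ix j s = u.1 →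
      ((u.2.1 : ℝ) ^ s)⁻¹ * ((u.2.2 : ℝ) ^ (kk j - s))⁻¹ ≤ B) → 0 ≤ B →
      |ZZ kk S ix c u j| ≤ H * N * ((D j : ℝ) + 1) * B := by
    intro u j B hB hB0
    unfold ZZ
    calc |∑ s ∈ (S j).filter (fun s => ix j s = u.1), c j s * (((u.2.1 : ℝ) ^ s)⁻¹ * ((u.2.2 : ℝ) ^ (kk j - s))⁻¹)|
        ≤ ∑ s ∈ (S j).filter (fun s => ix j s = u.1), H * B := by
          refine (Finset.abs_sum_le_sum_abs _ _).trans (Finset.sum_le_sum fun s hs => ?_)
          rw [Finset.mem_filter] at hs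
          rw [abs_mul, abs_of_nonneg (by positivity : (0 : ℝ) ≤ ((u.2.1 : ℝ) ^ s)⁻¹ * ((u.2.2 : ℝ) ^ (kk j - s))⁻¹)]
          exact mul_le_mul (hH _ (hc j s hs.1)) (hB s hs.1 hs.2) (by positivity) hH1
      _ = ((S j).filter (fun s => ix j s = u.1)).card * (H * B) := by rw [Finset.sum_const, nsmul_eq_mul]
      _ ≤ (N * ((D j : ℝ) + 1)) * (H * B) := by
          apply mul_le_mul_of_nonneg_right _ (by positivity)
          refine le_trans ?_ (hcard j)
          exact_mod_cast Finset.card_le_card (Finset.filter_subset _ _)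
      _ = _ := by ring
  -- limits
  set fin : Fin N → Prop := fun i => ∃ l : ℝ, ∀ ε : ℝ, 0 < ε → ∀ᶠ j in (UU : Filter ℕ), |(τ j i : ℝ) - l * L j| ≤ ε * L j with hfin
  have hfin' : ∀ i, ¬ fin i → ∀ R : ℝ, ∀ᶠ j in (UU : Filter ℕ), R * L j < τ j i := by
    intro i hi R
    rcases udich (fun j => (τ j i : ℝ) / L j) (by
      filter_upwards [hLpos] with j hj
      positivity) with h1 | h1
    · exfalso
      apply hi
      obtain ⟨l, hl⟩ := h1
      refine ⟨l, fun ε hε => ?_⟩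
      filter_upwards [hl ε hε, hLpos] with j h2 h3
      have h4 : (τ j i : ℝ) - l * L j = ((τ j i : ℝ) / L j - l) * L j := by field_simp
      rw [h4, abs_mul, abs_of_pos (by linarith : 0 < L j)]
      exact mul_le_mul_of_nonneg_right h2 (by linarith)
    · filter_upwards [h1 R, hLpos] with j h2 h3
      rwa [lt_div_iff₀ (by linarith)] at h2
  set kfin : Prop := ∃ l : ℝ, ∀ ε : ℝ, 0 < ε → ∀ᶠ j in (UU : Filter ℕ), |(kk j : ℝ) - l * L j| ≤ ε * L j with hkfin
  have hkfin' : ¬ kfin → ∀ R : ℝ, ∀ᶠ j in (UU : Filter ℕ), R * L j < kk j := by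
    intro hi R
    rcases udich (fun j => (kk j : ℝ) / L j) (by
      filter_upwards [hLpos] with j hj
      positivity) with h1 | h1
    · exfalso
      apply hi
      obtain ⟨l, hl⟩ := h1
      refine ⟨l, fun ε hε => ?_⟩
      filter_upwards [hl ε hε, hLpos] with j h2 h3
      have h4 : (kk j : ℝ) - l * L j = ((kk j : ℝ) / L j - l) * L j := by field_simp
      rw [h4, abs_mul, abs_of_pos (by linarith : 0 < L j)]
      exact mul_le_mul_of_nonneg_right h2 (by linarith)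
    · filter_upwards [h1 R, hLpos] with j h2 h3
      rwa [lt_div_iff₀ (by linarith)] at h2
  have hlex : ∀ i, ∃ l : ℝ, fin i → ∀ ε : ℝ, 0 < ε → ∀ᶠ j in (UU : Filter ℕ), |(τ j i : ℝ) - l * L j| ≤ ε * L j := by
    intro i
    by_cases h : fin i
    · obtain ⟨l, hl⟩ := h
      exact ⟨l, fun _ => hl⟩
    · exact ⟨0, fun h1 => absurd h1 h⟩
  choose l hl using hlex
  obtain ⟨ρ, hρ⟩ : ∃ ρ : ℝ, kfin → ∀ ε : ℝ, 0 < ε → ∀ᶠ j in (UU : Filter ℕ), |(kk j : ℝ) - ρ * L j| ≤ ε * L j := by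
    by_cases h : kfin
    · obtain ⟨l, hl⟩ := h
      exact ⟨l, fun _ => hl⟩
    · exact ⟨0, fun h1 => absurd h1 h⟩
  -- the prime
  set q : ℕ := pr iq with hq
  have hqp : q.Prime := pr_prime iq
  have hq2 : 2 ≤ q := hqp.two_le
  have hq1r : (1 : ℝ) < q := by exact_mod_cast hqp.one_lt
  set M : ℕ := q + iq + 1 with hM
  have hiqM : iq < M := by omega
  -- the index set
  set U : Finset (Fin N × ℕ × ℕ) := Finset.univ ×ˢ PM M with hU
  have hUmem : ∀ u ∈ U, 1 ≤ u.2.2 ∧ u.2.2 < u.2.1 ∧ u.2.1 ≤ M := by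
    intro u hu
    rw [hU, Finset.mem_product] at hu
    exact mem_PM.1 hu.2
  have hsumU : ∀ j, ∑ u ∈ U, ZZ kk S ix c u j = ∑ s ∈ S j, c j s * dzt M s (kk j - s) := by
    intro j
    rw [hU, Finset.sum_product]
    unfold ZZ
    simp only
    have h1 : ∀ i : Fin N, ∑ x ∈ PM M, ∑ s ∈ (S j).filter (fun s => ix j s = i), c j s * (((x.1 : ℝ) ^ s)⁻¹ * ((x.2 : ℝ) ^ (kk j - s))⁻¹) =
        ∑ s ∈ (S j).filter (fun s => ix j s = i), c j s * dzt M s (kk j - s) := by
      intro i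
      rw [Finset.sum_comm]
      refine Finset.sum_congr rfl fun s _ => ?_
      rw [← Finset.mul_sum, dzt_eq]
    rw [Finset.sum_congr rfl fun i _ => h1 i]
    exact Finset.sum_fiberwise_of_maps_to (fun s _ => Finset.mem_univ (ix j s)) _
  have hlogqM : Real.log ((q : ℝ) + 1) ≤ Real.log ((M : ℝ) + 1) := by
    apply Real.log_le_log (by positivity)
    have : (q : ℝ) ≤ M := by exact_mod_cast (by omega : q ≤ M)
    linarith
  have htot : ∑ u ∈ U, gr (ZZ kk S ix c u) ∈ SR L (Real.log (q + 1)) := by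
    have h1 : ∑ u ∈ U, gr (ZZ kk S ix c u) = gr (fun j => ∑ s ∈ S j, c j s * dz s (kk j - s)) -
        gr (fun j => ∑ s ∈ S j, c j s * (dz s (kk j - s) - dzt M s (kk j - s))) := by
      rw [← gr_sum, gr_sub]
      congr 1
      funext j
      rw [hsumU j, ← Finset.sum_sub_distrib]
      refine Finset.sum_congr rfl fun s _ => ?_
      ring
    rw [h1]
    refine SR_sub' hn hsmall (SR_anti hn hlogqM ?_)
    have hM1 : (0 : ℝ) < (M : ℝ) + 1 := by positivity
    refine SR_of hn _ D hD (H * N * (2 * ((M : ℝ) + 1) ^ 3)) _ (by positivity) ?_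
    filter_upwards [ev_of_atTop (hn.eventually_ge_atTop 3)] with j hj
    have hn3 : 3 ≤ nn j := by
      have h3 : (3 : ℝ) ≤ (nn j : ℝ) := hj
      exact_mod_cast h3
    have h2 : Real.exp (-(Real.log (M + 1) * L j)) = (((M : ℝ) + 1) ^ (nn j))⁻¹ := by
      rw [Real.exp_neg, mul_comm, hLdef]
      simp only
      rw [mul_comm, Real.exp_mul, Real.exp_log hM1, Real.rpow_natCast]
    rw [h2]
    have hterm : ∀ s ∈ S j, |c j s * (dz s (kk j - s) - dzt M s (kk j - s))| ≤ H * (2 * (((M : ℝ) + 1) ^ 3 * (((M : ℝ) + 1) ^ (nn j))⁻¹)) := by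
      intro s hs
      have hs1 := (hS j s hs).1
      rw [abs_mul]
      refine mul_le_mul (hH _ (hc j s hs)) ?_ (abs_nonneg _) hH1
      refine (dz_trunc M s (kk j - s) (by omega)).trans ?_
      apply mul_le_mul_of_nonneg_left _ (by norm_num)
      push_cast
      obtain ⟨e, he⟩ : ∃ e, nn j = e + 3 := ⟨nn j - 3, by omega⟩
      rw [he, pow_add, mul_inv]
      have h3 : ((M : ℝ) + 1) ^ 3 * ((((M : ℝ) + 1) ^ e)⁻¹ * (((M : ℝ) + 1) ^ 3)⁻¹) = (((M : ℝ) + 1) ^ e)⁻¹ := by field_simp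
      rw [h3]
      apply inv_anti₀ (by positivity)
      exact pow_le_pow_right₀ (by linarith [Nat.cast_nonneg (α := ℝ) M]) (by omega)
    calc |∑ s ∈ S j, c j s * (dz s (kk j - s) - dzt M s (kk j - s))|
        ≤ ∑ s ∈ S j, H * (2 * (((M : ℝ) + 1) ^ 3 * (((M : ℝ) + 1) ^ (nn j))⁻¹)) :=
          (Finset.abs_sum_le_sum_abs _ _).trans (Finset.sum_le_sum hterm)
      _ = (S j).card * (H * (2 * (((M : ℝ) + 1) ^ 3 * (((M : ℝ) + 1) ^ (nn j))⁻¹))) := by
          rw [Finset.sum_const, nsmul_eq_mul]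
      _ ≤ (N * ((D j : ℝ) + 1)) * (H * (2 * (((M : ℝ) + 1) ^ 3 * (((M : ℝ) + 1) ^ (nn j))⁻¹))) :=
          mul_le_mul_of_nonneg_right (hcard j) (by positivity)
      _ = _ := by ring
  have hl2 : 0 < Real.log 2 := Real.log_pos (by norm_num)
  have h2pow : ∀ a : ℕ, ((2 : ℝ) ^ a)⁻¹ = Real.exp (-(Real.log 2 * a)) := by
    intro a
    rw [Real.exp_neg, Real.exp_mul, Real.exp_log (by norm_num), Real.rpow_natCast]
  -- the negligible blocks
  have hbad : ∀ u ∈ U, ¬ (fin u.1 ∧ (u.2.2 = 1 ∨ kfin)) → ∀ x : ℝ, gr (ZZ kk S ix c u) ∈ SR L x := by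
    intro u hu hnot x
    obtain ⟨h1, h2, h3⟩ := hUmem u hu
    have hm2 : (2 : ℝ) ≤ u.2.1 := by exact_mod_cast (by omega : 2 ≤ u.2.1)
    have hn1 : (1 : ℝ) ≤ u.2.2 := by exact_mod_cast h1
    by_cases hf : fin u.1
    · have h4 : ¬ (u.2.2 = 1 ∨ kfin) := fun h => hnot ⟨hf, h⟩
      push Not at h4
      have hn2 : (2 : ℝ) ≤ u.2.2 := by exact_mod_cast (by omega : 2 ≤ u.2.2)
      refine SR_of hn _ D hD (H * N) x (by positivity) ?_
      filter_upwards [hkfin' h4.2 (|x| / Real.log 2), hLpos] with j hj hLj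
      refine hZ u j (Real.exp (-(x * L j))) (fun s hs _ => ?_) (Real.exp_pos _).le
      have hs2 := (hS j s hs).2
      calc ((u.2.1 : ℝ) ^ s)⁻¹ * ((u.2.2 : ℝ) ^ (kk j - s))⁻¹
          ≤ ((2 : ℝ) ^ s)⁻¹ * ((2 : ℝ) ^ (kk j - s))⁻¹ :=
            mul_le_mul (inv_anti₀ (by positivity) (pow_le_pow_left₀ (by norm_num) hm2 _))
              (inv_anti₀ (by positivity) (pow_le_pow_left₀ (by norm_num) hn2 _)) (by positivity) (by positivity)
        _ = ((2 : ℝ) ^ (kk j))⁻¹ := by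
            rw [← mul_inv, ← pow_add]
            congr 2
            omega
        _ = Real.exp (-(Real.log 2 * kk j)) := h2pow _
        _ ≤ Real.exp (-(x * L j)) := by
            apply Real.exp_le_exp.2
            have h5 : |x| / Real.log 2 * L j * Real.log 2 ≤ kk j * Real.log 2 :=
              mul_le_mul_of_nonneg_right hj.le hl2.le
            have h6 : |x| / Real.log 2 * L j * Real.log 2 = |x| * L j := by field_simp
            have h7 : x * L j ≤ |x| * L j := mul_le_mul_of_nonneg_right (le_abs_self x) (by linarith)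
            linarith
    · refine SR_of hn _ D hD (H * N) x (by positivity) ?_
      filter_upwards [hfin' u.1 hf (|x| / Real.log 2), hLpos] with j hj hLj
      refine hZ u j (Real.exp (-(x * L j))) (fun s hs hsi => ?_) (Real.exp_pos _).le
      have hs2 := (hix j s hs).1
      rw [hsi] at hs2
      calc ((u.2.1 : ℝ) ^ s)⁻¹ * ((u.2.2 : ℝ) ^ (kk j - s))⁻¹
          ≤ ((2 : ℝ) ^ (τ j u.1))⁻¹ * 1 := by
            apply mul_le_mul _ _ (by positivity) (by positivity)
            · apply inv_anti₀ (by positivity)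
              exact (pow_le_pow_right₀ (by norm_num) hs2).trans (pow_le_pow_left₀ (by norm_num) hm2 _)
            · exact inv_le_one_of_one_le₀ (one_le_pow₀ hn1)
        _ = Real.exp (-(Real.log 2 * τ j u.1)) := by rw [mul_one, h2pow]
        _ ≤ Real.exp (-(x * L j)) := by
            apply Real.exp_le_exp.2
            have h5 : |x| / Real.log 2 * L j * Real.log 2 ≤ τ j u.1 * Real.log 2 :=
              mul_le_mul_of_nonneg_right hj.le hl2.le
            have h6 : |x| / Real.log 2 * L j * Real.log 2 = |x| * L j := by field_simp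
            have h7 : x * L j ≤ |x| * L j := mul_le_mul_of_nonneg_right (le_abs_self x) (by linarith)
            linarith
  -- the good blocks
  set G : Finset (Fin N × ℕ × ℕ) := U.filter fun u => fin u.1 ∧ (u.2.2 = 1 ∨ kfin) with hG
  have hGsum : ∑ u ∈ G, gr (ZZ kk S ix c u) ∈ SR L (Real.log (q + 1)) := by
    have h1 := Finset.sum_filter_add_sum_filter_not U (fun u => fin u.1 ∧ (u.2.2 = 1 ∨ kfin)) (fun u => gr (ZZ kk S ix c u))
    have h2 : ∑ u ∈ G, gr (ZZ kk S ix c u) = ∑ u ∈ U, gr (ZZ kk S ix c u) -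
        ∑ u ∈ U.filter (fun u => ¬ (fin u.1 ∧ (u.2.2 = 1 ∨ kfin))), gr (ZZ kk S ix c u) := by
      rw [← h1, hG]
      ring
    rw [h2]
    refine SR_sub' hn htot (SR_sum hn _ _ fun u hu => ?_)
    rw [Finset.mem_filter] at hu
    exact hbad u hu.1 hu.2 _
  set g : Fin N × ℕ × ℕ → Fin M → ℝ := fun u i => -(l u.1 * vk M u.2.1 i + (ρ - l u.1) * vk M u.2.2 i) with hg
  have hblock : ∀ u ∈ G, ∃ a : KA F hn, gr (ZZ kk S ix c u) = (a : HR) * rho (ch (bs M) hn (g u)) := by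
    intro u hu
    rw [hG, Finset.mem_filter] at hu
    obtain ⟨hu1, hu2, hu3⟩ := hu
    obtain ⟨h1, h2, h3⟩ := hUmem u hu1
    refine block hn F Λ hΛF c (fun j => (S j).filter (fun s => ix j s = u.1))
      (fun j s hs => hc j s (Finset.mem_filter.1 hs).1) (fun j => τ j u.1) D kk ?_ ?_ hD (l u.1) (ρ - l u.1)
      (hl u.1 hu2) (fun j => (hτ j u.1).2.le) u.2.1 u.2.2 M h1 h2.le h3 ?_
    · intro j s hs
      rw [Finset.mem_filter] at hs
      have := hix j s hs.1
      rwa [hs.2] at this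
    · intro j s hs
      rw [Finset.mem_filter] at hs
      exact (hS j s hs.1).2.le
    · rcases hu3 with h4 | h4
      · exact Or.inl h4
      · right
        intro ε hε
        filter_upwards [hl u.1 hu2 (ε / 2) (by positivity), hρ h4 (ε / 2) (by positivity)] with j h5 h6
        have e1 : ((kk j : ℝ) - τ j u.1) - (ρ - l u.1) * L j = ((kk j : ℝ) - ρ * L j) - ((τ j u.1 : ℝ) - l u.1 * L j) := by ring
        rw [e1]
        refine (abs_sub _ _).trans ?_
        linarith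
  choose! a ha using hblock
  have hpart := part hFfin G M a g (x := Real.log (q + 1)) (by
    rw [← Finset.sum_congr rfl fun u hu => ha u hu]
    exact hGsum) (fun v => v ⟨iq, hiqM⟩ = -1)
  set G' : Finset (Fin N × ℕ × ℕ) := G.filter fun u => g u ⟨iq, hiqM⟩ = -1 with hG'
  have hpart' : ∑ u ∈ G', gr (ZZ kk S ix c u) ∈ SR L (Real.log (q + 1)) := by
    rw [Finset.sum_congr rfl fun u hu => ha u (Finset.mem_filter.1 hu).1]
    exact hpart
  -- the main part
  set I1 : Finset (Fin N) := Finset.univ.filter fun i => fin i ∧ l i = 1 with hI1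
  set NN : Finset ℕ := (Finset.Ico 1 q).filter fun n => n = 1 ∨ kfin with hNN
  set Mn : Finset (Fin N × ℕ × ℕ) := I1 ×ˢ (({q} : Finset ℕ) ×ˢ NN) with hMn
  have hMnmem : ∀ u, u ∈ Mn ↔ (fin u.1 ∧ l u.1 = 1) ∧ u.2.1 = q ∧ (1 ≤ u.2.2 ∧ u.2.2 < q) ∧ (u.2.2 = 1 ∨ kfin) := by
    intro u
    rw [hMn, Finset.mem_product, Finset.mem_product, hI1, hNN, Finset.mem_filter, Finset.mem_filter,
      Finset.mem_singleton, Finset.mem_Ico]
    simp only [Finset.mem_univ, true_and]
  have hvq : vk M q ⟨iq, hiqM⟩ = 1 := by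
    unfold vk
    show q.factorization (pr iq) = 1
    rw [← hq]
    exact hqp.factorization_self
  have hv0 : ∀ n : ℕ, n < q → vk M n ⟨iq, hiqM⟩ = 0 := by
    intro n hn'
    unfold vk
    show n.factorization (pr iq) = 0
    exact Nat.factorization_eq_zero_of_lt hn'
  have hMnsub : Mn ⊆ G' := by
    intro u hu
    obtain ⟨⟨h1, h2⟩, h3, h4, h5⟩ := (hMnmem u).1 hu
    rw [hG', Finset.mem_filter, hG, Finset.mem_filter, hU, Finset.mem_product]
    refine ⟨⟨⟨Finset.mem_univ _, mem_PM.2 ⟨h4.1, by omega, by omega⟩⟩, h1, h5⟩, ?_⟩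
    rw [hg]
    simp only
    rw [h3, hvq, hv0 _ h4.2, h2]
    norm_num
  have hrest : ∀ u ∈ G' \ Mn, q + 1 ≤ u.2.1 := by
    intro u hu
    rw [Finset.mem_sdiff, hG', Finset.mem_filter, hG, Finset.mem_filter] at hu
    obtain ⟨⟨⟨h1, h2, h3⟩, h4⟩, h5⟩ := hu
    obtain ⟨h6, h7, h8⟩ := hUmem u h1
    by_contra hcon
    rw [hg] at h4
    simp only at h4
    rw [hv0 u.2.2 (by omega)] at h4
    rcases Nat.lt_or_ge u.2.1 q with h9 | h9
    · rw [hv0 _ h9] at h4
      norm_num at h4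
    · have h10 : u.2.1 = q := by omega
      rw [h10, hvq] at h4
      apply h5
      rw [hMnmem]
      refine ⟨⟨h2, ?_⟩, h10, ⟨h6, by omega⟩, h3⟩
      push_cast at h4
      linarith
  have hqr : (0 : ℝ) < (q : ℝ) + 1 := by positivity
  have hqpow : ∀ j, Real.exp (-(Real.log (q + 1) * L j)) = (((q : ℝ) + 1) ^ (nn j))⁻¹ := by
    intro j
    rw [Real.exp_neg, hLdef]
    simp only
    rw [Real.exp_mul, Real.exp_log hqr, Real.rpow_natCast]
  have hmain : ∑ u ∈ Mn, gr (ZZ kk S ix c u) ∈ SR L (Real.log (q + 1)) := by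
    have h1 := Finset.sum_sdiff (f := fun u => gr (ZZ kk S ix c u)) hMnsub
    have h2 : ∑ u ∈ Mn, gr (ZZ kk S ix c u) = ∑ u ∈ G', gr (ZZ kk S ix c u) - ∑ u ∈ G' \ Mn, gr (ZZ kk S ix c u) := by
      rw [← h1]
      ring
    rw [h2]
    refine SR_sub' hn hpart' (SR_sum hn _ _ fun u hu => ?_)
    · have h3 := hrest u hu
      have h3r : (q : ℝ) + 1 ≤ u.2.1 := by exact_mod_cast h3
      have hu' := (Finset.mem_filter.1 (Finset.mem_filter.1 (Finset.mem_sdiff.1 hu).1).1).1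
      have h4r : (1 : ℝ) ≤ u.2.2 := by exact_mod_cast (hUmem u hu').1
      refine SR_of hn _ D hD (H * N) _ (by positivity) (Eventually.of_forall fun j => ?_)
      rw [hqpow]
      refine hZ u j _ (fun s hs _ => ?_) (by positivity)
      have hs1 := (hS j s hs).1
      calc ((u.2.1 : ℝ) ^ s)⁻¹ * ((u.2.2 : ℝ) ^ (kk j - s))⁻¹ ≤ (((q : ℝ) + 1) ^ (nn j))⁻¹ * 1 := by
            apply mul_le_mul _ _ (by positivity) (by positivity)
            · apply inv_anti₀ (by positivity)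
              exact (pow_le_pow_right₀ (by linarith) hs1).trans (pow_le_pow_left₀ (by linarith) h3r _)
            · exact inv_le_one_of_one_le₀ (one_le_pow₀ h4r)
        _ = _ := mul_one _
  -- evaluation
  set S1 : ℕ → Finset ℕ := fun j => (S j).filter fun s => fin (ix j s) ∧ l (ix j s) = 1 with hS1
  have heval : ∑ u ∈ Mn, gr (ZZ kk S ix c u) =
      gr (fun j => ∑ s ∈ S1 j, c j s * (((q : ℝ) ^ s)⁻¹ * ∑ n ∈ NN, ((n : ℝ) ^ (kk j - s))⁻¹)) := by
    rw [← gr_sum]
    congr 1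
    funext j
    rw [hMn, Finset.sum_product]
    have h1 : ∀ i ∈ I1, ∑ y ∈ ({q} : Finset ℕ) ×ˢ NN, ZZ kk S ix c (i, y) j =
        ∑ s ∈ (S1 j).filter (fun s => ix j s = i), c j s * (((q : ℝ) ^ s)⁻¹ * ∑ n ∈ NN, ((n : ℝ) ^ (kk j - s))⁻¹) := by
      intro i hi
      rw [hI1, Finset.mem_filter] at hi
      have h2 : (S1 j).filter (fun s => ix j s = i) = (S j).filter (fun s => ix j s = i) := by
        rw [hS1]
        ext s
        simp only [Finset.mem_filter]
        constructor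
        · rintro ⟨⟨h3, _⟩, h4⟩
          exact ⟨h3, h4⟩
        · rintro ⟨h3, h4⟩
          refine ⟨⟨h3, ?_⟩, h4⟩
          rw [h4]
          exact hi.2
      rw [h2, Finset.sum_product, Finset.sum_singleton]
      unfold ZZ
      simp only
      rw [Finset.sum_comm]
      refine Finset.sum_congr rfl fun s _ => ?_
      rw [Finset.mul_sum, Finset.mul_sum]
    rw [Finset.sum_congr rfl h1]
    refine Finset.sum_fiberwise_of_maps_to (fun s hs => ?_) _
    rw [hS1] at hs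
    simp only [Finset.mem_filter] at hs
    rw [hI1, Finset.mem_filter]
    exact ⟨Finset.mem_univ _, hs.2⟩
  rw [heval] at hmain
  -- the smallest first argument is in the main part
  have hnn1 : ∀ᶠ j in (UU : Filter ℕ), ∀ i, τ j i = nn j → fin i ∧ l i = 1 := by
    rw [Filter.eventually_all]
    intro i
    by_cases hi : fin i ∧ l i = 1
    · exact Eventually.of_forall fun j _ => hi
    · by_cases hf : fin i
      · have hl1 : l i ≠ 1 := fun h => hi ⟨hf, h⟩
        have h1 : 0 < |1 - l i| := abs_pos.2 (sub_ne_zero.2 (Ne.symm hl1))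
        filter_upwards [hl i hf (|1 - l i| / 2) (by positivity), hLpos] with j h2 h3 h4
        exfalso
        rw [h4] at h2
        have h5 : (nn j : ℝ) - l i * L j = (1 - l i) * L j := by rw [hLdef]; ring
        rw [h5, abs_mul, abs_of_pos (by linarith : 0 < L j)] at h2
        nlinarith
      · filter_upwards [hfin' i hf 1] with j h2 h3
        exfalso
        rw [h3, one_mul] at h2
        exact lt_irrefl _ h2
  have h1NN : 1 ∈ NN := by
    rw [hNN, Finset.mem_filter, Finset.mem_Ico]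
    exact ⟨⟨le_refl _, by omega⟩, Or.inl rfl⟩
  -- the contradiction
  rw [mem_SR] at hmain
  have hlogq : Real.log q < Real.log (q + 1) := Real.log_lt_log (by linarith) (by linarith)
  set ε : ℝ := (Real.log (q + 1) - Real.log q) / 2 with hε
  have hε0 : 0 < ε := by rw [hε]; linarith
  have hbig : ∀ᶠ j in (UU : Filter ℕ), Real.log (2 / μ) / ε < L j := ev_of_atTop (hn.eventually_gt_atTop _)
  obtain ⟨j, hj1, hj2, hj3⟩ := ((hmain ε hε0).and (hnn1.and hbig)).exists
  have hnnS1 : nn j ∈ S1 j := by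
    rw [hS1]
    simp only [Finset.mem_filter]
    refine ⟨hnS j, hj2 _ ?_⟩
    have h1 := (hix j _ (hnS j)).1
    have h2 := (hτ j (ix j (nn j))).1
    omega
  have hlow := main_low q hq1r (nn j) (S1 j) hnnS1
    (fun s hs => (hS j s (Finset.mem_filter.1 hs).1).1) (c j) (fun s => ∑ n ∈ NN, ((n : ℝ) ^ (kk j - s))⁻¹) μ H
    (1 + Real.log q) hH1 (hμ _ (hc j _ (hnS j)) (hc0 j)) (fun s hs => hH _ (hc j s (Finset.mem_filter.1 hs).1))
    (fun s hs => W_le q hq2 NN (fun n hn' => by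
      rw [hNN, Finset.mem_filter, Finset.mem_Ico] at hn'
      exact hn'.1) h1NN (kk j - s) (by
        have := (hS j s (Finset.mem_filter.1 hs).1).2
        omega)) hiq
  have h1 := hlow.trans hj1
  have hqj : ((q : ℝ) ^ (nn j))⁻¹ = Real.exp (-(Real.log q * L j)) := by
    rw [Real.exp_neg, hLdef]
    simp only
    rw [Real.exp_mul, Real.exp_log (by linarith), Real.rpow_natCast]
  rw [hqj] at h1
  have h2 : Real.exp (-(Real.log (q + 1) - ε) * L j) = Real.exp (-(Real.log q * L j)) * Real.exp (-(ε * L j)) := by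
    rw [← Real.exp_add]
    congr 1
    rw [hε]
    ring
  rw [h2] at h1
  have h3 : μ / 2 ≤ Real.exp (-(ε * L j)) := by
    have h4 := Real.exp_pos (-(Real.log q * L j))
    rw [mul_comm] at h1
    exact le_of_mul_le_mul_left h1 h4
  have h4 : 2 / μ < Real.exp (ε * L j) := by
    rw [div_lt_iff₀ hε0] at hj3
    calc 2 / μ = Real.exp (Real.log (2 / μ)) := (Real.exp_log (by positivity)).symm
      _ < Real.exp (ε * L j) := Real.exp_lt_exp.2 (by linarith)
  rw [Real.exp_neg] at h3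
  have h5 : (Real.exp (ε * L j))⁻¹ < (2 / μ)⁻¹ := inv_strictAnti₀ (by positivity) h4
  rw [inv_div] at h5
  linarith

end Pool.Agent.W2helper67.CZ
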