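import Mathlib
import Pool.Agent.W2helper67.CZ.D

/-!
# Relations with coefficients from a finite set have a spread out support
-/

set_option autoImplicit false

namespace Pool.Agent.W2helper67.CZ

open Filter Topology Pool.Agent.TH932.Abs Pool.Agent.TH932.Germs Pool.Agent.TH932.Chi
open Pool.Agent.TH796.AL Pool.Agent.Y760.ZG
open Pool.Agent.W2helper67.DZ (dz zt inner_le summable_dz summable_zt tail_two)

/-- windows that start at elements of the set -/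
theorem enum (S T : Finset ℕ) (N D n0 : ℕ) (hT : T.card ≤ N) (hn0 : n0 ∈ S)
    (h : ∀ s ∈ S, ∃ t ∈ T, t ≤ s ∧ s ≤ t + D) :
    ∃ τ : Fin N → ℕ, (∀ i, τ i ∈ S) ∧ ∀ s ∈ S, ∃ i, τ i ≤ s ∧ s ≤ τ i + D := by
  classical
  have h1 : ∀ t : ℕ, ∃ t' ∈ S, ∀ s ∈ S, t ≤ s → s ≤ t + D → t' ≤ s ∧ s ≤ t' + D := by
    intro t
    rcases (S.filter fun s => t ≤ s ∧ s ≤ t + D).eq_empty_or_nonempty with h0 | h0
    · refine ⟨n0, hn0, fun s hs h2 h3 => ?_⟩
      have : s ∈ S.filter fun s => t ≤ s ∧ s ≤ t + D := Finset.mem_filter.2 ⟨hs, h2, h3⟩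
      rw [h0] at this
      simp at this
    · obtain ⟨t', ht', hmin⟩ := Finset.exists_min_image _ (fun s => s) h0
      rw [Finset.mem_filter] at ht'
      refine ⟨t', ht'.1, fun s hs h2 h3 => ?_⟩
      have h4 : t' ≤ s := hmin s (Finset.mem_filter.2 ⟨hs, h2, h3⟩)
      omega
  choose f hf hf2 using h1
  set e : Fin N → ℕ := fun i => if hi : (i : ℕ) < T.card then (T.equivFin.symm ⟨i, hi⟩ : ℕ) else 0 with he
  refine ⟨fun i => f (e i), fun i => hf _, fun s hs => ?_⟩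
  obtain ⟨t, ht, h2, h3⟩ := h s hs
  set i0 := T.equivFin ⟨t, ht⟩ with hi0
  have hi1 : (i0 : ℕ) < N := lt_of_lt_of_le i0.2 hT
  refine ⟨⟨i0, hi1⟩, ?_⟩
  have h4 : e ⟨i0, hi1⟩ = t := by
    rw [he]
    simp only
    rw [dif_pos i0.2]
    have h5 : (⟨(i0 : ℕ), i0.2⟩ : Fin T.card) = i0 := rfl
    rw [h5, hi0, Equiv.symm_apply_apply]
  show f (e ⟨i0, hi1⟩) ≤ s ∧ s ≤ f (e ⟨i0, hi1⟩) + D
  rw [h4]
  exact hf2 t s hs h2 h3

theorem zt_ge_one (k : ℕ) (hk : 2 ≤ k) : 1 ≤ zt k := by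
  have h := (summable_zt k hk).sum_le_tsum (Finset.range 1) (fun i _ => by positivity)
  simpa [zt] using h

theorem dz_small (p q : ℕ) (hp : 3 ≤ p) : |dz p q| ≤ 2 * ((2 : ℝ) ^ (p - 3))⁻¹ := by
  have h := dz_trunc 1 p q hp
  have h1 : dzt 1 p q = 0 := by
    unfold dzt
    simp
  rw [h1, sub_zero] at h
  norm_num at h ⊢
  exact h

/-- the sum over a set of exponents larger than `n0` -/
theorem tail_sum (H : ℝ) (hH : 0 ≤ H) (n0 : ℕ) (hn0 : 3 ≤ n0) (T : Finset ℕ) (hT : ∀ s ∈ T, n0 < s)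
    (c : ℕ → ℝ) (hc : ∀ s ∈ T, |c s| ≤ H) (k : ℕ) :
    |∑ s ∈ T, c s * dz s (k - s)| ≤ 16 * H * ((2 : ℝ) ^ n0)⁻¹ := by
  calc |∑ s ∈ T, c s * dz s (k - s)| ≤ ∑ s ∈ T, (16 * H) * ((2 : ℝ) ^ s)⁻¹ := by
        refine (Finset.abs_sum_le_sum_abs _ _).trans (Finset.sum_le_sum fun s hs => ?_)
        have hs1 := hT s hs
        rw [abs_mul]
        obtain ⟨e, he⟩ : ∃ e, s = e + 3 := ⟨s - 3, by omega⟩
        have h4 : 2 * ((2 : ℝ) ^ (s - 3))⁻¹ = 16 * ((2 : ℝ) ^ s)⁻¹ := by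
          rw [he, Nat.add_sub_cancel, pow_add]
          field_simp
          norm_num
        calc |c s| * |dz s (k - s)| ≤ H * (2 * ((2 : ℝ) ^ (s - 3))⁻¹) :=
              mul_le_mul (hc s hs) (dz_small s _ (by omega)) (abs_nonneg _) hH
          _ = (16 * H) * ((2 : ℝ) ^ s)⁻¹ := by rw [h4]; ring
    _ = (16 * H) * ∑ s ∈ T, ((2 : ℝ) ^ s)⁻¹ := by rw [Finset.mul_sum]
    _ ≤ (16 * H) * (((2 : ℝ) ^ n0)⁻¹ / (2 - 1)) :=
        mul_le_mul_of_nonneg_left (geo_le 2 (by norm_num) n0 T hT) (by positivity)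
    _ = _ := by norm_num

/-- **the spread of the support** -/
theorem spread (Λ : Finset ℝ) (hΛ : ∀ a ∈ Λ, IsAlgebraic ℚ a) (C : ℝ) (hC : 1 ≤ C) :
    ∃ R : ℝ, 1 ≤ R ∧ ∀ N : ℕ, ∃ δ : ℝ, 0 < δ ∧ ∃ n0 : ℕ, ∀ n k : ℕ, n0 ≤ n → ∀ S T : Finset ℕ,
      T.card ≤ N → n ∈ S → (∀ s ∈ S, n ≤ s ∧ s < k) → ∀ (c : ℕ → ℝ) (d : ℝ), c n ≠ 0 →
      (∀ s ∈ S, (s : ℝ) ≤ R * n → c s ∈ Λ ∧ ∃ t ∈ T, t ≤ s ∧ (s : ℝ) ≤ t + δ * n) →
      (∀ s ∈ S, |c s| ≤ C ^ n) → (d = 0 ∨ C⁻¹ ≤ |d|) →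
      Real.exp (-(R * n)) < |∑ s ∈ S, c s * dz s (k - s) + d * zt k| := by
  classical
  have hl2 : 0 < Real.log 2 := Real.log_pos (by norm_num)
  have hl21 : Real.log 2 ≤ 1 := by
    have := Real.log_two_lt_d9
    linarith
  have hC0 : 0 < C := by linarith
  have hlC : 0 ≤ Real.log C := Real.log_nonneg hC
  -- bounds for the coefficients
  obtain ⟨H, hH1, hH⟩ : ∃ H : ℝ, 0 ≤ H ∧ ∀ a ∈ Λ, |a| ≤ H :=
    ⟨∑ a ∈ Λ, |a|, Finset.sum_nonneg fun _ _ => abs_nonneg _,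
      fun a ha => Finset.single_le_sum (f := fun a => |a|) (fun _ _ => abs_nonneg _) ha⟩
  obtain ⟨μ, hμ0, hμ⟩ : ∃ μ : ℝ, 0 < μ ∧ ∀ a ∈ Λ, a ≠ 0 → μ ≤ |a| := by
    rcases (Λ.filter fun a => a ≠ 0).eq_empty_or_nonempty with h0 | h0
    · refine ⟨1, one_pos, fun a ha ha0 => ?_⟩
      have : a ∈ Λ.filter fun a => a ≠ 0 := Finset.mem_filter.2 ⟨ha, ha0⟩
      rw [h0] at this
      simp at this
    · obtain ⟨a0, ha0, hmin⟩ := Finset.exists_min_image _ (fun a => |a|) h0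
      rw [Finset.mem_filter] at ha0
      exact ⟨|a0|, abs_pos.2 ha0.2, fun a ha h1 => hmin a (Finset.mem_filter.2 ⟨ha, h1⟩)⟩
  obtain ⟨iq, hiq⟩ := exists_q H μ hH1 hμ0
  have hq2 : (2 : ℝ) ≤ pr iq := by exact_mod_cast (pr_prime iq).two_le
  set x0 : ℝ := Real.log (pr iq + 1) with hx0
  have hx0pos : Real.log 2 ≤ x0 := Real.log_le_log (by norm_num) (by linarith)
  set R : ℝ := (x0 + Real.log C) / Real.log 2 with hR
  have hR1 : 1 ≤ R := by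
    rw [hR, le_div_iff₀ hl2, one_mul]
    linarith
  have hRl : R * Real.log 2 = x0 + Real.log C := by rw [hR]; field_simp
  have hRx : x0 ≤ R := by nlinarith
  refine ⟨R, hR1, fun N => ?_⟩
  by_contra hcon
  push Not at hcon
  have hseq : ∀ j : ℕ, ∃ (n k : ℕ) (S T : Finset ℕ) (c : ℕ → ℝ) (d : ℝ), j + 3 ≤ n ∧ T.card ≤ N ∧ n ∈ S ∧
      (∀ s ∈ S, n ≤ s ∧ s < k) ∧ c n ≠ 0 ∧
      (∀ s ∈ S, (s : ℝ) ≤ R * n → c s ∈ Λ ∧ ∃ t ∈ T, t ≤ s ∧ (s : ℝ) ≤ t + (1 / ((j : ℝ) + 1)) * n) ∧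
      (∀ s ∈ S, |c s| ≤ C ^ n) ∧ (d = 0 ∨ C⁻¹ ≤ |d|) ∧
      |∑ s ∈ S, c s * dz s (k - s) + d * zt k| ≤ Real.exp (-(R * n)) := by
    intro j
    obtain ⟨n, k, h1, S, T, h2, h3, h4, c, d, h5, h6, h7, h8, h9⟩ := hcon (1 / ((j : ℝ) + 1)) (by positivity) (j + 3)
    exact ⟨n, k, S, T, c, d, h1, h2, h3, h4, h5, h6, h7, h8, h9⟩
  choose nn kk S T c d hnn hT hnS hS hc0 hcov hcC hd hF using hseq
  set S' : ℕ → Finset ℕ := fun j => (S j).filter fun s => (s : ℝ) ≤ R * nn j with hS'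
  have hmemS' : ∀ j s, s ∈ S' j ↔ s ∈ S j ∧ (s : ℝ) ≤ R * nn j := by
    intro j s
    rw [hS']
    exact Finset.mem_filter
  have hnS' : ∀ j, nn j ∈ S' j := by
    intro j
    rw [hmemS']
    refine ⟨hnS j, ?_⟩
    have : (0 : ℝ) ≤ nn j := Nat.cast_nonneg _
    nlinarith
  set D : ℕ → ℕ := fun j => ⌊(1 / ((j : ℝ) + 1)) * nn j⌋₊ with hD
  have hDle : ∀ j, (D j : ℝ) ≤ (1 / ((j : ℝ) + 1)) * nn j := fun j => Nat.floor_le (by positivity)
  have henum : ∀ j, ∃ τ : Fin N → ℕ, (∀ i, τ i ∈ S' j) ∧ ∀ s ∈ S' j, ∃ i, τ i ≤ s ∧ s ≤ τ i + D j := by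
    intro j
    refine enum (S' j) (T j) N (D j) (nn j) (hT j) (hnS' j) fun s hs => ?_
    rw [hmemS'] at hs
    obtain ⟨_, t, ht, h1, h2⟩ := hcov j s hs.1 hs.2
    refine ⟨t, ht, h1, ?_⟩
    have h3 : ((s - t : ℕ) : ℝ) ≤ (1 / ((j : ℝ) + 1)) * nn j := by
      rw [Nat.cast_sub h1]
      linarith
    have h4 : s - t ≤ D j := Nat.le_floor h3
    omega
  choose τ hτ hτ2 using henum
  have hixex : ∀ j s, ∃ i : Fin N, s ∈ S' j → τ j i ≤ s ∧ s ≤ τ j i + D j := by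
    intro j s
    by_cases hs : s ∈ S' j
    · obtain ⟨i, hi⟩ := hτ2 j s hs
      exact ⟨i, fun _ => hi⟩
    · obtain ⟨i, _⟩ := hτ2 j (nn j) (hnS' j)
      exact ⟨i, fun h => absurd h hs⟩
  choose ix hix using hixex
  have hcΛ : ∀ j, ∀ s ∈ S' j, c j s ∈ Λ := fun j s hs => by
    rw [hmemS'] at hs
    exact (hcov j s hs.1 hs.2).1
  have hn : Tendsto (fun j => (nn j : ℝ)) atTop atTop := by
    refine tendsto_natCast_atTop_atTop.comp ?_
    exact tendsto_atTop_mono (fun j => (Nat.le_add_right j 3).trans (hnn j)) tendsto_id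
  have hjbig : ∀ x : ℝ, ∀ᶠ j : ℕ in (UU : Filter ℕ), x ≤ (j : ℝ) := fun x =>
    ev_of_atTop (tendsto_natCast_atTop_atTop.eventually_ge_atTop x)
  have hD' : ∀ ε : ℝ, 0 < ε → ∀ᶠ j in (UU : Filter ℕ), (D j : ℝ) ≤ ε * nn j := by
    intro ε hε
    filter_upwards [hjbig (1 / ε)] with j hj
    refine (hDle j).trans (mul_le_mul_of_nonneg_right ?_ (Nat.cast_nonneg _))
    rw [div_le_iff₀ (by positivity)]
    rw [div_le_iff₀ hε] at hj
    nlinarith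
  -- the remainder
  have hrem : ∀ j, |∑ s ∈ (S j).filter (fun s : ℕ => ¬ (s : ℝ) ≤ R * nn j), c j s * dz s (kk j - s)| ≤
      32 * Real.exp (-(x0 * nn j)) := by
    intro j
    have hnj := hnn j
    have hfl : 3 ≤ ⌊R * nn j⌋₊ := by
      apply Nat.le_floor
      have : (3 : ℝ) ≤ nn j := by exact_mod_cast (by omega : 3 ≤ nn j)
      push_cast
      nlinarith
    have h4 := tail_sum (C ^ (nn j)) (by positivity) ⌊R * nn j⌋₊ hfl ((S j).filter (fun s : ℕ => ¬ (s : ℝ) ≤ R * nn j)) (fun s hs => by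
      rw [Finset.mem_filter, not_le] at hs
      exact (Nat.floor_lt (by positivity)).2 hs.2) (c j) (fun s hs => hcC j s (Finset.mem_filter.1 hs).1) (kk j)
    refine h4.trans ?_
    have h5 : C ^ (nn j) * ((2 : ℝ) ^ ⌊R * nn j⌋₊)⁻¹ ≤ 2 * Real.exp (-(x0 * nn j)) := by
      have h6 : R * nn j ≤ (⌊R * nn j⌋₊ : ℝ) + 1 := (Nat.lt_floor_add_one _).le
      have h7 : ((2 : ℝ) ^ ⌊R * nn j⌋₊)⁻¹ = Real.exp (-(Real.log 2 * ⌊R * nn j⌋₊)) := by
        rw [Real.exp_neg, Real.exp_mul, Real.exp_log (by norm_num), Real.rpow_natCast]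
      have h8 : C ^ (nn j) = Real.exp (Real.log C * nn j) := by
        rw [Real.exp_mul, Real.exp_log hC0, Real.rpow_natCast]
      rw [h7, h8, ← Real.exp_add]
      calc Real.exp (Real.log C * nn j + -(Real.log 2 * ⌊R * nn j⌋₊)) ≤ Real.exp (Real.log 2 + -(x0 * nn j)) := by
            apply Real.exp_le_exp.2
            have h9 := mul_le_mul_of_nonneg_left h6 hl2.le
            have h10 : Real.log 2 * (R * nn j) = x0 * nn j + Real.log C * nn j := by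
              calc Real.log 2 * (R * nn j) = (R * Real.log 2) * nn j := by ring
                _ = _ := by rw [hRl]; ring
            linarith
        _ = 2 * Real.exp (-(x0 * nn j)) := by rw [Real.exp_add, Real.exp_log (by norm_num)]
    calc 16 * C ^ (nn j) * ((2 : ℝ) ^ ⌊R * nn j⌋₊)⁻¹ = 16 * (C ^ (nn j) * ((2 : ℝ) ^ ⌊R * nn j⌋₊)⁻¹) := by ring
      _ ≤ 16 * (2 * Real.exp (-(x0 * nn j))) := mul_le_mul_of_nonneg_left h5 (by positivity)
      _ = _ := by ring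
  have h2n : ∀ j, ((2 : ℝ) ^ (nn j))⁻¹ = Real.exp (-(Real.log 2 * nn j)) := by
    intro j
    rw [Real.exp_neg, Real.exp_mul, Real.exp_log (by norm_num), Real.rpow_natCast]
  have hx0n : ∀ j, Real.exp (-(x0 * nn j)) ≤ ((2 : ℝ) ^ (nn j))⁻¹ := by
    intro j
    rw [h2n]
    apply Real.exp_le_exp.2
    have := mul_le_mul_of_nonneg_right hx0pos (Nat.cast_nonneg (α := ℝ) (nn j))
    linarith
  -- the sum of all the double zeta values
  have hall : ∀ j, |∑ s ∈ S' j, c j s * dz s (kk j - s)| ≤ 32 * H * ((2 : ℝ) ^ (nn j))⁻¹ := by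
    intro j
    have hnj := hnn j
    rw [← Finset.add_sum_erase _ _ (hnS' j)]
    have h1 : |∑ s ∈ (S' j).erase (nn j), c j s * dz s (kk j - s)| ≤ 16 * H * ((2 : ℝ) ^ (nn j))⁻¹ := by
      refine tail_sum H hH1 (nn j) (by omega) _ (fun s hs => ?_) (c j) (fun s hs => hH _ (hcΛ j s (Finset.mem_of_mem_erase hs))) _
      rw [Finset.mem_erase, hmemS'] at hs
      exact lt_of_le_of_ne (hS j s hs.2.1).1 (Ne.symm hs.1)
    have h2 : |c j (nn j) * dz (nn j) (kk j - nn j)| ≤ 16 * H * ((2 : ℝ) ^ (nn j))⁻¹ := by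
      rw [abs_mul]
      obtain ⟨e, he⟩ : ∃ e, nn j = e + 3 := ⟨nn j - 3, by omega⟩
      have h4 : 2 * ((2 : ℝ) ^ (nn j - 3))⁻¹ = 16 * ((2 : ℝ) ^ (nn j))⁻¹ := by
        rw [he, Nat.add_sub_cancel, pow_add]
        field_simp
        norm_num
      calc |c j (nn j)| * |dz (nn j) (kk j - nn j)| ≤ H * (2 * ((2 : ℝ) ^ (nn j - 3))⁻¹) :=
            mul_le_mul (hH _ (hcΛ j _ (hnS' j))) (dz_small _ _ (by omega)) (abs_nonneg _) hH1
        _ = 16 * H * ((2 : ℝ) ^ (nn j))⁻¹ := by rw [h4]; ring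
    refine (abs_add_le _ _).trans ?_
    linarith
  have hsplit : ∀ j, ∑ s ∈ S j, c j s * dz s (kk j - s) = ∑ s ∈ S' j, c j s * dz s (kk j - s) +
        ∑ s ∈ (S j).filter (fun s : ℕ => ¬ (s : ℝ) ≤ R * nn j), c j s * dz s (kk j - s) := by
    intro j
    rw [← Finset.sum_filter_add_sum_filter_not (S j) (fun s : ℕ => (s : ℝ) ≤ R * nn j) (fun s => c j s * dz s (kk j - s)), hS']
  -- the coefficient of the zeta value vanishes
  have hd0 : ∀ᶠ j in (UU : Filter ℕ), d j = 0 := by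
    have hbig : ∀ᶠ j in (UU : Filter ℕ), Real.log ((32 * H + 33) * (2 * C)) / Real.log 2 ≤ (nn j : ℝ) :=
      ev_of_atTop (hn.eventually_ge_atTop _)
    filter_upwards [hbig] with j h2
    by_contra hdj
    have h4 := (hd j).resolve_left hdj
    have h3 : ((2 : ℝ) ^ (nn j))⁻¹ ≤ ((32 * H + 33) * (2 * C))⁻¹ := by
      rw [h2n, Real.exp_neg]
      apply inv_anti₀ (by positivity)
      rw [div_le_iff₀ hl2] at h2
      calc (32 * H + 33) * (2 * C) = Real.exp (Real.log ((32 * H + 33) * (2 * C))) := (Real.exp_log (by positivity)).symm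
        _ ≤ Real.exp (Real.log 2 * nn j) := Real.exp_le_exp.2 (by linarith)
    have h5 : |∑ s ∈ S j, c j s * dz s (kk j - s)| ≤ 32 * H * ((2 : ℝ) ^ (nn j))⁻¹ + 32 * ((2 : ℝ) ^ (nn j))⁻¹ := by
      rw [hsplit j]
      refine (abs_add_le _ _).trans (add_le_add (hall j) ((hrem j).trans ?_))
      exact mul_le_mul_of_nonneg_left (hx0n j) (by norm_num)
    have h6 : |∑ s ∈ S j, c j s * dz s (kk j - s) + d j * zt (kk j)| ≤ ((2 : ℝ) ^ (nn j))⁻¹ := by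
      refine (hF j).trans ?_
      rw [h2n]
      apply Real.exp_le_exp.2
      have h9 : (0 : ℝ) ≤ nn j := Nat.cast_nonneg _
      nlinarith
    have hk : 2 ≤ kk j := by
      have := hS j _ (hnS j)
      have := hnn j
      omega
    have h10 := zt_ge_one (kk j) hk
    have h11 : C⁻¹ ≤ |d j * zt (kk j)| := by
      rw [abs_mul, abs_of_nonneg (by linarith : 0 ≤ zt (kk j))]
      calc C⁻¹ ≤ |d j| * 1 := by rw [mul_one]; exact h4
        _ ≤ |d j| * zt (kk j) := mul_le_mul_of_nonneg_left h10 (abs_nonneg _)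
    have h12 : |d j * zt (kk j)| ≤ (32 * H + 33) * ((2 : ℝ) ^ (nn j))⁻¹ := by
      have h13 : d j * zt (kk j) = (∑ s ∈ S j, c j s * dz s (kk j - s) + d j * zt (kk j)) - ∑ s ∈ S j, c j s * dz s (kk j - s) := by ring
      rw [h13]
      refine (abs_sub _ _).trans ?_
      linarith
    have h14 : (32 * H + 33) * ((2 : ℝ) ^ (nn j))⁻¹ ≤ C⁻¹ / 2 := by
      calc (32 * H + 33) * ((2 : ℝ) ^ (nn j))⁻¹ ≤ (32 * H + 33) * ((32 * H + 33) * (2 * C))⁻¹ :=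
            mul_le_mul_of_nonneg_left h3 (by positivity)
        _ = C⁻¹ / 2 := by field_simp
    have h15 : 0 < C⁻¹ := by positivity
    linarith
  refine core Λ hΛ N H μ hH1 hH hμ0 hμ iq hiq nn kk D S' τ ix c hn hD' hnS'
    (fun j s hs => hS j s ((hmemS' j s).1 hs).1)
    (fun j i => ⟨(hS j _ ((hmemS' j _).1 (hτ j i)).1).1, (hS j _ ((hmemS' j _).1 (hτ j i)).1).2⟩)
    (fun j s hs => hix j s hs) hc0 hcΛ ?_
  refine SR_of hn _ D hD' 33 x0 (by positivity) ?_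
  filter_upwards [hd0] with j h1
  have h3 := hF j
  rw [h1, zero_mul, add_zero] at h3
  have hn0 : (0 : ℝ) ≤ nn j := Nat.cast_nonneg _
  have h4 : |∑ s ∈ S' j, c j s * dz s (kk j - s)| ≤ 33 * Real.exp (-(x0 * nn j)) := by
    have h5 : ∑ s ∈ S' j, c j s * dz s (kk j - s) = ∑ s ∈ S j, c j s * dz s (kk j - s) -
        ∑ s ∈ (S j).filter (fun s : ℕ => ¬ (s : ℝ) ≤ R * nn j), c j s * dz s (kk j - s) := by
      rw [hsplit j]
      ring
    rw [h5]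
    refine (abs_sub _ _).trans ?_
    have h6 : Real.exp (-(R * nn j)) ≤ Real.exp (-(x0 * nn j)) := by
      apply Real.exp_le_exp.2
      nlinarith
    have h7 := hrem j
    linarith
  refine h4.trans ?_
  have h7 : (1 : ℝ) ≤ (D j : ℝ) + 1 := by
    have : (0 : ℝ) ≤ D j := Nat.cast_nonneg _
    linarith
  have h8 : 0 ≤ 33 * Real.exp (-(x0 * (nn j : ℝ))) := by positivity
  calc 33 * Real.exp (-(x0 * nn j)) ≤ (33 * Real.exp (-(x0 * nn j))) * ((D j : ℝ) + 1) := by nlinarith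
    _ = _ := by ring

end Pool.Agent.W2helper67.CZ
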